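import Mathlib
import Pool.Agent.Q157.SC.Stm

/-!
# Project DD (MP_5a645a_al): the least derived length after 2-colouring is 3

Upper bound. `G` transitive and solvable on `X`, `|X| ≥ 4`: there are five inequivalent 2-colourings with
stabiliser (acting on `X`) of derived length at most 3. Induction: `M` a maximal subgroup containing a point
stabiliser, `B` its orbit, `S = G / M`, primitive. If `|B| = 1`, see `S_R5`. If `|B| ≥ 4`, use five colourings of the
block and a 5-colouring of `S` with trivial stabiliser (`S_Dp`); if `|B| = 2, 3`, use three colourings of the block and a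
3-colouring of `S` with abelian stabiliser (`S_E5`).
-/

set_option autoImplicit false

namespace Pool.Agent.Q157.DD

open Equiv Pool.Agent.Q157.SC

/-- The derived series of a subgroup, in the ambient group. -/
def ds {G : Type} [Group G] (K : Subgroup G) : ℕ → Subgroup G
  | 0 => K
  | n + 1 => ⁅ds K n, ds K n⁆

/-- The affine permutations preserving `c`. -/
def ast {V α : Type} [AddCommGroup V] (c : V → α) : Subgroup (Perm V) where
  carrier := {f | Aff f ∧ ∀ x, c (f x) = c x}
  one_mem' := ⟨fun _ _ _ => rfl, fun _ => rfl⟩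
  mul_mem' := by
    rintro f g ⟨hf, hf'⟩ ⟨hg, hg'⟩
    refine ⟨fun x y z => ?_, fun x => ?_⟩
    · show f (g (x - y + z)) = f (g x) - f (g y) + f (g z)
      rw [hg, hf]
    · show c (f (g x)) = c x
      rw [hf', hg']
  inv_mem' := by
    rintro f ⟨hf, hf'⟩
    refine ⟨fun x y z => ?_, fun x => ?_⟩
    · show f.symm (x - y + z) = f.symm x - f.symm y + f.symm z
      apply f.injective
      rw [f.apply_symm_apply, hf, f.apply_symm_apply, f.apply_symm_apply, f.apply_symm_apply]
    · show c (f.symm x) = c x
      rw [← hf' (f.symm x), f.apply_symm_apply]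

/-- The elements of `T` preserving `c`. -/
def cst {S α : Type} (T : Subgroup (Perm S)) (c : S → α) : Subgroup (Perm S) where
  carrier := {f | f ∈ T ∧ ∀ x, c (f x) = c x}
  one_mem' := ⟨T.one_mem, fun _ => rfl⟩
  mul_mem' := by
    rintro f g ⟨hf, hf'⟩ ⟨hg, hg'⟩
    refine ⟨T.mul_mem hf hg, fun x => ?_⟩
    show c (f (g x)) = c x
    rw [hf', hg']
  inv_mem' := by
    rintro f ⟨hf, hf'⟩
    refine ⟨T.inv_mem hf, fun x => ?_⟩
    show c (f.symm x) = c x
    rw [← hf' (f.symm x), f.apply_symm_apply]

/-- Three strongly spanning 2-colourings of different sizes, with stabilisers of derived length at most 3. (For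
`V` of exponent 2 also with at least two points with `c = false`.) -/
def Tri (V : Type) [AddCommGroup V] : Prop :=
  ∃ c : Fin 3 → V → Bool, (∀ i, Spn (c i) ∧ ds (ast (c i)) 3 = ⊥ ∧
    ((∀ v : V, v + v = 0) → ∃ a b, a ≠ b ∧ c i a = false ∧ c i b = false)) ∧
    ∀ i j, tr (c i) = tr (c j) → i = j

/-- Five 2-colourings of different sizes, with stabilisers of derived length at most 3. -/
def Five (V : Type) [AddCommGroup V] : Prop :=
  ∃ c : Fin 5 → V → Bool, (∀ i, ds (ast (c i)) 3 = ⊥) ∧ ∀ i j, tr (c i) = tr (c j) → i = j

/-- The number of the points of colour `a`. -/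
noncomputable def cn {V α : Type} (c : V → α) (a : α) : ℕ := Nat.card {x : V // c x = a}

/-- `Tri (V × ZMod p)` and `Five (V × ZMod p)` from `Tri V` by `ex p (c i)` and complements. -/
def S_tri : Prop :=
  ∀ (p : ℕ) [Fact p.Prime] (V : Type) [AddCommGroup V] [Finite V],
    (3 ≤ p ∧ 3 ≤ Nat.card V) ∨ (p = 2 ∧ 8 ≤ Nat.card V ∧ ∀ v : V, v + v = 0) →
    Tri V → Tri (V × ZMod p) ∧ Five (V × ZMod p)

/-- The class with 6 elements: `0, a, b, a+b, c, d` (a plane and two more points). -/
def c6 : V4 → Bool := fun x => decide (x.2 = 0 ∨ x = (0, (1, 0)) ∨ x = (0, (0, 1)))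

/-- `p = 3`, `V = ZMod 3 × ZMod 3`. Colourings: `c4` (`true` iff both coordinates are not zero), its complement (5
points), the complement of the frame `{(0,0),(1,0),(0,1)}` (6 points), the frame (3 points), the pair
`{(0,0),(1,0)}` (2 points). `Tri`: sizes 4, 5, 6; `Five`: sizes 4, 5, 6, 3, 2. The stabiliser of a spanning class with at
most 4 points acts faithfully on it, so its derived length is at most that of the symmetric group on 4 (3)
points. The pair: the stabiliser has a subgroup of index at most 2 (normal) fixing both points; its elements are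
`(x, y) ↦ (x + α y, δ y)`, so their commutators are of the form `(x + α y, y)` and commute. -/
def S_n9 : Prop := Tri (ZMod 3 × ZMod 3) ∧ Five (ZMod 3 × ZMod 3)

/-- `c7`: derived length at most 3. An affine permutation preserving `c7` fixes `0` and preserves or exchanges the two
planes; those which preserve both act faithfully on the two sets of three nonzero points. And `c7` and its
complement are strongly spanning. -/
def S_d7 : Prop := ds (ast c7) 3 = ⊥ ∧ Spn c7 ∧ Spn (fun x => !c7 x)

/-- `c8`: derived length at most 3. An affine permutation `f` preserving `c8` preserves `Q = {c, c+b, d, d+a}` and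
preserves or exchanges the pairs `{c,c+b}` and `{d,d+a}` (see the docstring of `S_c8` in `Q157/SC/Stm.lean`). Those
which preserve both pairs act on them by commuting involutions; and those which fix the four points are
determined by `f 0 = e ∈ {0,a,b,a+b}` (they are `x ↦ x + e` at `0` and the linear part fixes `a`, `b` and `c + d`), and
commute. -/
def S_d8 : Prop := ds (ast c8) 3 = ⊥

/-- `c6`: derived length at most 3, size 6. An affine permutation preserving `c6` preserves the plane
`{0,a,b,a+b}` (the only four different points of the class with sum 0) and the pair `{c,d}`; it acts faithfully on the six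
points (they span). -/
def S_d6 : Prop := ds (ast c6) 3 = ⊥ ∧ tr c6 = 6

/-- All the vector spaces but `(ZMod 2)³` and the ones with at most 3 elements. -/
def S_A5 : Prop :=
  ∀ (p d : ℕ) [Fact p.Prime], 4 ≤ p ^ d → ¬ (p = 2 ∧ d = 3) → Five (Fin d → ZMod p)

/-- Five 3-colourings with different numbers and with abelian stabilisers. -/
def AE (V : Type) [AddCommGroup V] : Prop :=
  ∃ c : Fin 5 → V → Fin 3, (∀ i, ∀ f ∈ ast (c i), ∀ g ∈ ast (c i), f * g = g * f) ∧
    ∀ i j, (∀ a, cn (c i) a = cn (c j) a) → i = j

/-- See `Q157/DD/UpStep.lean` (`up`, `up_comm`, `up_spn`, `up_cn`) for the step `V` to `V × ZMod p`: from a colouring `τ` with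
commuting stabiliser such that `τ ≠ a` is strongly spanning get `up τ a b` with commuting stabiliser; numbers:
`a`: `+ (p-1) n - 1`, `b`: `+ 1`. Invariant: the three numbers are different (so the six permutations of the colours
have different numbers). `b` = the one of the two colours different from `a` with the larger number; the next
`a` is any colour different from `a`. Start: `p ≥ 3`: `V = ZMod p`, `0` has colour `1`, the others `0`, `a = 2` (numbers
`p - 1, 1, 0`; the maps fixing `0` are `x ↦ b x`). `p = 2`: dimension 3, `0, e1` have colour `1`, `e2, e3` colour `2`, the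
others `0`, `a = 1`, `b = 0`, giving dimension 4 with numbers `5, 9, 2`. `p = 2`, `d = 1`: `(2,0,0), (0,2,0), (0,0,2), (1,1,0),
(1,0,1)`. `d = 2`: `(2,2,0), (2,0,2), (0,2,2), (2,1,1), (1,2,1)`. -/
def S_AE : Prop :=
  ∀ (p d : ℕ) [Fact p.Prime], 1 ≤ d → ¬ (p = 2 ∧ d = 3) → AE (Fin d → ZMod p)

/-- Five 5-colourings with different numbers and with trivial stabilisers. -/
def AD (V : Type) [AddCommGroup V] : Prop :=
  ∃ c : Fin 5 → V → Fin 5, (∀ i, ∀ f ∈ ast (c i), f = 1) ∧
    ∀ i j, (∀ a, cn (c i) a = cn (c j) a) → i = j

/-- A colouring with trivial stabiliser whose numbers are not all equal gives five by adding constants to the colours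
(`Fin 5`). `d ≤ 3`: `0, e1, e2, e3` have the colours `1, 2, 3, 4` (as far as they exist), the others `0`. `d ≥ 4`: steps
`up τ a b` with `a, b` = `1, 0`, then `0, 1`, then `1, 0` and so on; the numbers of the colours `2`, `3` stay `1`. -/
def S_AD : Prop := ∀ (p d : ℕ) [Fact p.Prime], 1 ≤ d → AD (Fin d → ZMod p)

/-- Primitive solvable groups of degree at least 4. -/
def S_R5 : Prop :=
  ∀ (S : Type) [Finite S] (T : Subgroup (Perm S)), Group.IsSolvable T → MulAction.IsPreprimitive T S →
    4 ≤ Nat.card S → ∃ c : Fin 5 → S → Bool, (∀ i j, ∀ g ∈ T, (∀ x, c i (g x) = c j x) → i = j) ∧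
      ∀ i, ds (cst T (c i)) 3 = ⊥

def S_E5 : Prop :=
  ∀ (S : Type) [Finite S] [Nontrivial S] (T : Subgroup (Perm S)), Group.IsSolvable T →
    MulAction.IsPreprimitive T S →
    ∃ c : Fin 5 → S → Fin 3, (∀ i j, ∀ g ∈ T, (∀ x, c i (g x) = c j x) → i = j) ∧
      ∀ i, ∀ g ∈ cst T (c i), ∀ h ∈ cst T (c i), g * h = h * g

def S_Dp : Prop :=
  ∀ (S : Type) [Finite S] [Nontrivial S] (T : Subgroup (Perm S)), Group.IsSolvable T →
    MulAction.IsPreprimitive T S →
    ∃ c : Fin 5 → S → Fin 5, (∀ i j, ∀ g ∈ T, (∀ x, c i (g x) = c j x) → i = j) ∧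
      ∀ i, ∀ g ∈ cst T (c i), g = 1

/-- The upper bound. -/
def S_up : Prop :=
  ∀ (Ω : Type) [Finite Ω] (G : Subgroup (Perm Ω)), Group.IsSolvable G →
    ∃ c : Ω → Bool, ds (cst G c) 3 = ⊥

/-! ### The lower bound -/

/-- The 32 points. -/
abbrev P32 : Type := Bool × Fin 4 × Fin 4

/-- The group `(S₄ ≀ S₄) ≀ C₂`: the permutations which preserve the partition into the 8 sets with given first and
second coordinate, and the partition into the 2 sets with given first coordinate. -/
def G32 : Subgroup (Perm P32) where
  carrier := {g | (∀ x y, x.1 = y.1 ↔ (g x).1 = (g y).1) ∧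
    ∀ x y, (x.1 = y.1 ∧ x.2.1 = y.2.1) ↔ ((g x).1 = (g y).1 ∧ (g x).2.1 = (g y).2.1)}
  one_mem' := ⟨fun _ _ => Iff.rfl, fun _ _ => Iff.rfl⟩
  mul_mem' := by
    rintro f g ⟨hf, hf'⟩ ⟨hg, hg'⟩
    exact ⟨fun x y => (hg x y).trans (hf (g x) (g y)), fun x y => (hg' x y).trans (hf' (g x) (g y))⟩
  inv_mem' := by
    rintro f ⟨hf, hf'⟩
    refine ⟨fun x y => ?_, fun x y => ?_⟩
    · have := hf (f.symm x) (f.symm y)
      rw [f.apply_symm_apply, f.apply_symm_apply] at this
      exact this.symm
    · have := hf' (f.symm x) (f.symm y)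
      rw [f.apply_symm_apply, f.apply_symm_apply] at this
      exact this.symm

/-- `G32` is solvable: the kernel of the action on the 8 blocks acts on each block by the solvable group
`Perm (Fin 4)`, the kernel of the action on `Bool` acts on the 4 blocks of each half by `Perm (Fin 4)`. -/
def S_sol : Prop := Group.IsSolvable G32

/-- For every 2-colouring `c` of the 32 points the second derived subgroup of the stabiliser is not trivial. Let
`k (u, i)` be the number of the points with `c = true` in the block `(u, i)`. (1) If some `k (u,i)` is `0` or `4`, the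
stabiliser contains the symmetric group on the 4 points of this block. (2) If two of the four blocks of one half
have `k = 1` (or two have `k = 3`): it contains `S₃ ≀ C₂`. (3) If three blocks of a half have `k = 2`: it contains
`C₂ ≀ S₃`. (4) Otherwise in both halves the values are `1, 3, 2, 2`, there is an element of the stabiliser exchanging
the halves, and it contains `(C₂ ≀ C₂) ≀ C₂`. Each of these groups has derived length 3 (find `a, b, c, d` with
`⁅⁅a, b⁆, ⁅c, d⁆⁆ ≠ 1`). -/
def S_low : Prop := ∀ c : P32 → Bool, ds (cst G32 c) 2 ≠ ⊥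

end Pool.Agent.Q157.DD
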