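import Mathlib
import Pool.Agent.Q157.DD.Stm
import Pool.Agent.Q157.SC.Bas

/-!
# Project DD: derived series
-/

set_option autoImplicit false

namespace Pool.Agent.Q157.DD

open Equiv Pool.Agent.Q157.SC
open scoped commutatorElement

variable {G H : Type} [Group G] [Group H]

theorem ds_succ (K : Subgroup G) (n : ℕ) : ds K (n + 1) = ⁅ds K n, ds K n⁆ := rfl

theorem ds_zero (K : Subgroup G) : ds K 0 = K := rfl

theorem ds_mono {K L : Subgroup G} (h : K ≤ L) (n : ℕ) : ds K n ≤ ds L n := by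
  induction n with
  | zero => exact h
  | succ n ih => exact Subgroup.commutator_mono ih ih

theorem ds_step (K : Subgroup G) (n : ℕ) : ds K (n + 1) ≤ ds K n := by
  rw [ds_succ, Subgroup.commutator_le]
  intro a ha b hb
  exact (ds K n).mul_mem ((ds K n).mul_mem ((ds K n).mul_mem ha hb) ((ds K n).inv_mem ha))
    ((ds K n).inv_mem hb)

theorem ds_anti (K : Subgroup G) {m n : ℕ} (h : m ≤ n) : ds K n ≤ ds K m := by
  induction n, h using Nat.le_induction with
  | base => exact le_rfl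
  | succ n _ ih => exact (ds_step K n).trans ih

theorem ds_le (K : Subgroup G) (n : ℕ) : ds K n ≤ K := ds_anti K (Nat.zero_le n)

theorem ds_map (f : G →* H) (K : Subgroup G) (n : ℕ) : (ds K n).map f = ds (K.map f) n := by
  induction n with
  | zero => rfl
  | succ n ih => rw [ds_succ, Subgroup.map_commutator, ih, ds_succ]

theorem ds_add (K : Subgroup G) (m n : ℕ) : ds K (m + n) = ds (ds K m) n := by
  induction n with
  | zero => rfl
  | succ n ih => rw [← Nat.add_assoc, ds_succ, ih, ds_succ]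

theorem ds_bot (n : ℕ) : ds (⊥ : Subgroup G) n = ⊥ := by
  rw [eq_bot_iff]
  exact ds_le _ n

theorem ds_comm {K : Subgroup G} (h : ∀ a ∈ K, ∀ b ∈ K, a * b = b * a) : ds K 1 = ⊥ := by
  rw [eq_bot_iff, ds_succ, ds_zero, Subgroup.commutator_le]
  intro a ha b hb
  rw [Subgroup.mem_bot, commutatorElement_eq_one_iff_mul_comm]
  exact h a ha b hb

theorem ds_bot_mono {K L : Subgroup G} (h : K ≤ L) {m n : ℕ} (hmn : m ≤ n) (hL : ds L m = ⊥) :
    ds K n = ⊥ := by
  rw [eq_bot_iff, ← hL]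
  exact (ds_anti K hmn).trans (ds_mono h m)

theorem ds_top (n : ℕ) : ds (⊤ : Subgroup G) n = derivedSeries G n := by
  induction n with
  | zero => rfl
  | succ n ih => rw [ds_succ, ih, derivedSeries_succ]

theorem ds_subtype (K : Subgroup G) (n : ℕ) : (derivedSeries K n).map K.subtype = ds K n := by
  rw [← ds_top, ds_map]
  congr 1
  rw [← MonoidHom.range_eq_map, Subgroup.range_subtype]

theorem derived_eq_bot {K : Subgroup G} {n : ℕ} : derivedSeries K n = ⊥ ↔ ds K n = ⊥ := by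
  rw [← ds_subtype, Subgroup.map_eq_bot_iff_of_injective _ K.subtype_injective]

/-- A homomorphism of `K`. -/
theorem ds_hom (K : Subgroup G) (f : K →* H) (n : ℕ) (hn : ∀ L : Subgroup H, ds L n = ⊥) (g : G)
    (hg : g ∈ ds K n) : f ⟨g, ds_le K n hg⟩ = 1 := by
  rw [← ds_subtype, ← ds_top] at hg
  obtain ⟨k, hk, hkg⟩ := hg
  have h1 : f k ∈ (ds (⊤ : Subgroup K) n).map f := ⟨k, hk, rfl⟩
  rw [ds_map, hn, Subgroup.mem_bot] at h1
  have h2 : k = ⟨g, ds_le K n (by rw [← ds_subtype, ← ds_top]; exact ⟨k, hk, hkg⟩)⟩ := Subtype.ext hkg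
  rw [← h2]
  exact h1

/-! ### Small symmetric groups -/

def K4 : Subgroup (Perm (Fin 4)) where
  carrier := {σ | σ = 1 ∨ ∀ i, σ (σ i) = i ∧ σ i ≠ i}
  one_mem' := Or.inl rfl
  mul_mem' := by
    have h : ∀ a b : Perm (Fin 4), (a = 1 ∨ ∀ i, a (a i) = i ∧ a i ≠ i) →
      (b = 1 ∨ ∀ i, b (b i) = i ∧ b i ≠ i) → (a * b = 1 ∨ ∀ i, (a * b) ((a * b) i) = i ∧
        (a * b) i ≠ i) := by decide +kernel
    intro a b ha hb
    exact h a b ha hb
  inv_mem' := by
    have h : ∀ a : Perm (Fin 4), (a = 1 ∨ ∀ i, a (a i) = i ∧ a i ≠ i) →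
      (a⁻¹ = 1 ∨ ∀ i, a⁻¹ (a⁻¹ i) = i ∧ a⁻¹ i ≠ i) := by decide +kernel
    intro a ha
    exact h a ha

theorem perm4 (L : Subgroup (Perm (Fin 4))) : ds L 3 = ⊥ := by
  apply ds_bot_mono (le_top : L ≤ ⊤) le_rfl
  have h1 : ds (⊤ : Subgroup (Perm (Fin 4))) 1 ≤ alternatingGroup (Fin 4) := by
    rw [ds_succ, Subgroup.commutator_le]
    intro a _ b _
    rw [Perm.mem_alternatingGroup, commutatorElement_def, map_mul, map_mul, map_mul, map_inv, map_inv,
      mul_comm (Perm.sign a), mul_assoc (Perm.sign b), mul_inv_cancel, mul_one, mul_inv_cancel]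
  have h2 : ds (⊤ : Subgroup (Perm (Fin 4))) 2 ≤ K4 := by
    refine le_trans (Subgroup.commutator_mono h1 h1) ?_
    rw [Subgroup.commutator_le]
    have h : ∀ a b : Perm (Fin 4), Perm.sign a = 1 → Perm.sign b = 1 →
        (⁅a, b⁆ = 1 ∨ ∀ i, ⁅a, b⁆ (⁅a, b⁆ i) = i ∧ ⁅a, b⁆ i ≠ i) := by decide +kernel
    intro a ha b hb
    exact h a b (Perm.mem_alternatingGroup.1 ha) (Perm.mem_alternatingGroup.1 hb)
  rw [eq_bot_iff]
  refine le_trans (Subgroup.commutator_mono h2 h2) ?_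
  rw [Subgroup.commutator_le]
  have h : ∀ a b : Perm (Fin 4), (a = 1 ∨ ∀ i, a (a i) = i ∧ a i ≠ i) →
      (b = 1 ∨ ∀ i, b (b i) = i ∧ b i ≠ i) → ⁅a, b⁆ = 1 := by decide +kernel
  intro a ha b hb
  rw [Subgroup.mem_bot]
  exact h a b ha hb

theorem perm3 (L : Subgroup (Perm (Fin 3))) : ds L 2 = ⊥ := by
  apply ds_bot_mono (le_top : L ≤ ⊤) le_rfl
  have h1 : ds (⊤ : Subgroup (Perm (Fin 3))) 1 ≤ alternatingGroup (Fin 3) := by
    rw [ds_succ, Subgroup.commutator_le]
    intro a _ b _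
    rw [Perm.mem_alternatingGroup, commutatorElement_def, map_mul, map_mul, map_mul, map_inv, map_inv,
      mul_comm (Perm.sign a), mul_assoc (Perm.sign b), mul_inv_cancel, mul_one, mul_inv_cancel]
  rw [eq_bot_iff]
  refine le_trans (Subgroup.commutator_mono h1 h1) ?_
  rw [Subgroup.commutator_le]
  have h : ∀ a b : Perm (Fin 3), Perm.sign a = 1 → Perm.sign b = 1 → ⁅a, b⁆ = 1 := by decide +kernel
  intro a ha b hb
  rw [Subgroup.mem_bot]
  exact h a b (Perm.mem_alternatingGroup.1 ha) (Perm.mem_alternatingGroup.1 hb)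

theorem perm2 (L : Subgroup (Perm (Fin 2))) : ds L 1 = ⊥ := by
  apply ds_comm
  have h : ∀ a b : Perm (Fin 2), a * b = b * a := by decide +kernel
  intro a _ b _
  exact h a b

theorem ds_iso {Y Z : Type} (e : Y ≃ Z) (n : ℕ) (h : ∀ L : Subgroup (Perm Z), ds L n = ⊥)
    (L : Subgroup (Perm Y)) : ds L n = ⊥ := by
  have h1 : (ds L n).map e.permCongrHom.toMonoidHom = ⊥ := by
    rw [ds_map]
    exact h _
  rwa [Subgroup.map_eq_bot_iff_of_injective _ e.permCongrHom.injective] at h1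

theorem perm_small {Y : Type} [Finite Y] :
    (Nat.card Y ≤ 4 → ∀ L : Subgroup (Perm Y), ds L 3 = ⊥) ∧
    (Nat.card Y ≤ 3 → ∀ L : Subgroup (Perm Y), ds L 2 = ⊥) ∧
    (Nat.card Y ≤ 2 → ∀ L : Subgroup (Perm Y), ds L 1 = ⊥) := by
  have e : Y ≃ Fin (Nat.card Y) := Finite.equivFin Y
  have key : ∀ n : ℕ, (n ≤ 4 → ∀ L : Subgroup (Perm (Fin n)), ds L 3 = ⊥) ∧
      (n ≤ 3 → ∀ L : Subgroup (Perm (Fin n)), ds L 2 = ⊥) ∧
      (n ≤ 2 → ∀ L : Subgroup (Perm (Fin n)), ds L 1 = ⊥) := by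
    have h0 : ∀ n, n ≤ 1 → ∀ L : Subgroup (Perm (Fin n)), ds L 1 = ⊥ := by
      intro n hn L
      apply ds_comm
      intro a _ b _
      have : Subsingleton (Fin n) := Fin.subsingleton_iff_le_one.2 hn
      exact Subsingleton.elim _ _
    have h1 : ∀ n, n ≤ 2 → ∀ L : Subgroup (Perm (Fin n)), ds L 1 = ⊥ := by
      intro n hn
      rcases Nat.lt_or_ge n 2 with h | h
      · exact h0 n (by omega)
      · have : n = 2 := by omega
        subst this
        exact perm2
    have h2 : ∀ n, n ≤ 3 → ∀ L : Subgroup (Perm (Fin n)), ds L 2 = ⊥ := by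
      intro n hn
      rcases Nat.lt_or_ge n 3 with h | h
      · intro L
        exact ds_bot_mono le_rfl (by norm_num) (h1 n (by omega) L)
      · have : n = 3 := by omega
        subst this
        exact perm3
    have h3 : ∀ n, n ≤ 4 → ∀ L : Subgroup (Perm (Fin n)), ds L 3 = ⊥ := by
      intro n hn
      rcases Nat.lt_or_ge n 4 with h | h
      · intro L
        exact ds_bot_mono le_rfl (by norm_num) (h2 n (by omega) L)
      · have : n = 4 := by omega
        subst this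
        exact perm4
    intro n
    exact ⟨h3 n, h2 n, h1 n⟩
  exact ⟨fun h => ds_iso e 3 ((key _).1 h), fun h => ds_iso e 2 ((key _).2.1 h),
    fun h => ds_iso e 1 ((key _).2.2 h)⟩

/-- The restriction to an invariant subset. -/
def resHom {X : Type} (K : Subgroup (Perm X)) (P : X → Prop) (hP : ∀ g ∈ K, ∀ x, P x → P (g x)) :
    K →* Perm {x // P x} where
  toFun g := g.1.subtypePerm (fun x => ⟨fun h => by
    have := hP g.1⁻¹ (K.inv_mem g.2) _ h
    simpa using this, hP g.1 g.2 x⟩)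
  map_one' := rfl
  map_mul' _ _ := rfl

theorem ds_fix {X : Type} (K : Subgroup (Perm X)) (P : X → Prop)
    (hP : ∀ g ∈ K, ∀ x, P x → P (g x)) (n : ℕ) (hn : ∀ L : Subgroup (Perm {x // P x}), ds L n = ⊥)
    (g : Perm X) (hg : g ∈ ds K n) (x : X) (hx : P x) : g x = x := by
  have h1 := ds_hom K (resHom K P hP) n hn g hg
  exact congrArg Subtype.val (Perm.congr_fun h1 ⟨x, hx⟩)

/-- The derived length of the stabiliser of a small spanning class. -/
theorem ds_span {V : Type} [AddCommGroup V] (K : Subgroup (Perm V)) (P : V → Prop)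
    (hA : ∀ f ∈ K, Aff f) (hP : ∀ g ∈ K, ∀ x, P x → P (g x)) (n : ℕ)
    (hn : ∀ L : Subgroup (Perm {x // P x}), ds L n = ⊥)
    (hS : ∀ U : Set V, Closed U → (∀ x, P x → x ∈ U) → ∀ v, v ∈ U) : ds K n = ⊥ := by
  rw [eq_bot_iff]
  intro g hg
  rw [Subgroup.mem_bot]
  have h1 := aff_ext g (1 : Perm V) {x | P x} (hA g (ds_le K n hg)) (fun _ _ _ => rfl)
    (fun U hU hs => hS U hU (fun x hx => hs hx)) (fun x hx => ds_fix K P hP n hn g hg x hx)
  exact DFunLike.coe_injective h1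

theorem ast_compl {V : Type} [AddCommGroup V] (c : V → Bool) : ast (fun x => !c x) = ast c := by
  ext f
  constructor
  · rintro ⟨h1, h2⟩
    exact ⟨h1, fun x => Bool.not_inj (h2 x)⟩
  · rintro ⟨h1, h2⟩
    exact ⟨h1, fun x => by show (!c (f x)) = !c x; rw [h2]⟩

end Pool.Agent.Q157.DD
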