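import Mathlib
import Pool.Agent.Q157.DD.Ds

/-!
# Project DD: derived series, second part
-/

set_option autoImplicit false

namespace Pool.Agent.Q157.DD

open Equiv Pool.Agent.Q157.SC
open scoped commutatorElement

variable {G H : Type} [Group G] [Group H]

/-- A homomorphism of `K` into `L` with `ds L n = ⊥`. -/
theorem ds_hom2 (K : Subgroup G) (f : K →* H) (L : Subgroup H) (hf : ∀ k, f k ∈ L) (n : ℕ)
    (hn : ds L n = ⊥) (g : G) (hg : g ∈ ds K n) : f ⟨g, ds_le K n hg⟩ = 1 := by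
  rw [← ds_subtype, ← ds_top] at hg
  obtain ⟨k, hk, hkg⟩ := hg
  have h1 : f k ∈ (ds (⊤ : Subgroup K) n).map f := ⟨k, hk, rfl⟩
  rw [ds_map] at h1
  have h3 : (⊤ : Subgroup K).map f ≤ L := by
    rintro _ ⟨x, -, rfl⟩
    exact hf x
  have h4 := ds_mono h3 n h1
  rw [hn, Subgroup.mem_bot] at h4
  have h2 : k = ⟨g, ds_le K n (by rw [← ds_subtype, ← ds_top]; exact ⟨k, hk, hkg⟩)⟩ := Subtype.ext hkg
  rw [← h2]
  exact h4

/-- If every element of `K` preserves or reverses the label `t` on the invariant set `P`, the elements of the derived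
subgroup preserve it. -/
theorem swp {X : Type} (K : Subgroup (Perm X)) (P : X → Prop) (hP : ∀ g ∈ K, ∀ x, P x → P (g x))
    (t : X → Bool) (ht : ∀ g ∈ K, ∃ e : Bool, ∀ x, P x → t (g x) = xor e (t x)) :
    ∀ g ∈ ds K 1, ∀ x, P x → t (g x) = t x := by
  have hPi : ∀ g ∈ K, ∀ x, P x → P (g⁻¹ x) := fun g hg => hP g⁻¹ (K.inv_mem hg)
  let L : Subgroup (Perm X) :=
    { carrier := {g | g ∈ K ∧ ∀ x, P x → t (g x) = t x}
      one_mem' := ⟨K.one_mem, fun _ _ => rfl⟩
      mul_mem' := by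
        rintro f g ⟨hf, hf'⟩ ⟨hg, hg'⟩
        refine ⟨K.mul_mem hf hg, fun x hx => ?_⟩
        show t (f (g x)) = t x
        rw [hf' _ (hP g hg x hx), hg' x hx]
      inv_mem' := by
        rintro f ⟨hf, hf'⟩
        refine ⟨K.inv_mem hf, fun x hx => ?_⟩
        have h1 := hf' _ (hPi f hf x hx)
        have h2 : f (f⁻¹ x) = x := f.apply_symm_apply x
        rw [h2] at h1
        exact h1.symm }
  have h : ds K 1 ≤ L := by
    rw [ds_succ, ds_zero, Subgroup.commutator_le]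
    intro a ha b hb
    refine ⟨?_, fun x hx => ?_⟩
    · exact K.mul_mem (K.mul_mem (K.mul_mem ha hb) (K.inv_mem ha)) (K.inv_mem hb)
    · obtain ⟨e1, h1⟩ := ht a ha
      obtain ⟨e2, h2⟩ := ht b hb
      have p1 : P (b⁻¹ x) := hPi b hb x hx
      have p2 : P (a⁻¹ (b⁻¹ x)) := hPi a ha _ p1
      have p3 : P (b (a⁻¹ (b⁻¹ x))) := hP b hb _ p2
      have q1 := h2 _ p1
      have q2 := h1 _ p2
      have r1 : b (b⁻¹ x) = x := b.apply_symm_apply x
      have r2 : a (a⁻¹ (b⁻¹ x)) = b⁻¹ x := a.apply_symm_apply _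
      rw [r1] at q1
      rw [r2] at q2
      show t (a (b (a⁻¹ (b⁻¹ x)))) = t x
      rw [h1 _ p3, h2 _ p2, q1, q2]
      cases e1 <;> cases e2 <;> cases t (a⁻¹ (b⁻¹ x)) <;> rfl
  intro g hg
  exact (h hg).2

/-- The same, if the relation `t x = t y` is preserved. -/
theorem swp2 {X : Type} (K : Subgroup (Perm X)) (P : X → Prop) (hP : ∀ g ∈ K, ∀ x, P x → P (g x))
    (t : X → Bool) (ht : ∀ g ∈ K, ∀ x y, P x → P y → (t (g x) = t (g y) ↔ t x = t y)) :
    ∀ g ∈ ds K 1, ∀ x, P x → t (g x) = t x := by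
  apply swp K P hP t
  intro g hg
  by_cases h : ∃ x, P x
  · obtain ⟨x0, hx0⟩ := h
    refine ⟨xor (t (g x0)) (t x0), fun x hx => ?_⟩
    have h1 := ht g hg x x0 hx hx0
    revert h1
    cases t (g x) <;> cases t (g x0) <;> cases t x <;> cases t x0 <;> simp
  · exact ⟨false, fun x hx => absurd ⟨x, hx⟩ h⟩

end Pool.Agent.Q157.DD
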