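import Mathlib
import Pool.Agent.Q157.DD.Ds2

/-!
# Project DD: composition of colourings of the blocks
-/

set_option autoImplicit false

namespace Pool.Agent.Q157.DD

open Equiv MulAction
open scoped commutatorElement

/-- The elements preserving the colouring. -/
def stc (G : Type) [Group G] {X α : Type} [MulAction G X] (c : X → α) : Subgroup G where
  carrier := {g | ∀ x, c (g • x) = c x}
  one_mem' := fun x => by rw [one_smul]
  mul_mem' := by
    intro f g hf hg x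
    rw [mul_smul, hf, hg]
  inv_mem' := by
    intro f hf x
    have h := hf (f⁻¹ • x)
    rw [smul_inv_smul] at h
    exact h.symm

theorem comp {G : Type} [Group G] {X : Type} [MulAction G X] [IsPretransitive G X] (ω : X)
    (M : Subgroup G) (hM : stabilizer G ω ≤ M) {k : ℕ} {α : Type} (b : Fin k → X → α)
    (hb : ∀ i j, ∀ m ∈ M, (∀ y ∈ orbit M ω, b i (m • y) = b j y) → i = j) :
    ∃ γ : (G ⧸ M → Fin k) → X → α,
      (∀ (τ τ' : G ⧸ M → Fin k) (g : G), (∀ x : X, γ τ (g • x) = γ τ' x) → ∀ σ : G ⧸ M, τ (g • σ) = τ' σ) ∧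
      ∀ (τ : G ⧸ M → Fin k) (K : Subgroup G), (∀ g ∈ K, ∀ x, γ τ (g • x) = γ τ x) →
        (∀ g ∈ K, ∀ σ : G ⧸ M, g • σ = σ) → ∀ n : ℕ,
        (∀ j, ∀ L : Subgroup G, L ≤ M → (∀ m ∈ L, ∀ y ∈ orbit M ω, b j (m • y) = b j y) →
          ∀ m ∈ ds L n, ∀ y ∈ orbit M ω, m • y = y) → ∀ g ∈ ds K n, ∀ x : X, g • x = x := by
  classical
  have hch : ∀ x : X, ∃ g : G, g • ω = x := fun x => exists_smul_eq G ω x
  choose r hr using hch
  let π : X → G ⧸ M := fun x => (r x : G ⧸ M)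
  have hπ : ∀ g : G, π (g • ω) = (g : G ⧸ M) := by
    intro g
    show ((r (g • ω) : G) : G ⧸ M) = (g : G ⧸ M)
    rw [QuotientGroup.eq]
    apply hM
    rw [mem_stabilizer_iff, mul_smul, inv_smul_eq_iff]
    exact (hr _).symm
  have hπ2 : ∀ (a : G) (x : X), π (a • x) = a • π x := by
    intro a x
    obtain ⟨g, rfl⟩ := exists_smul_eq G ω x
    rw [← mul_smul, hπ, hπ]
    rfl
  let s : G ⧸ M → G := fun σ => Quotient.out σ
  have hsσ : ∀ σ, ((s σ : G) : G ⧸ M) = σ := fun σ => QuotientGroup.out_eq' σ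
  have hmem : ∀ x, (s (π x))⁻¹ • x ∈ orbit M ω := by
    intro x
    obtain ⟨g, rfl⟩ := exists_smul_eq G ω x
    have h1 : (s (π (g • ω)))⁻¹ * g ∈ M := by
      rw [← QuotientGroup.eq, hsσ, hπ]
    refine ⟨⟨_, h1⟩, ?_⟩
    show ((s (π (g • ω)))⁻¹ * g) • ω = _
    rw [mul_smul]
  have hπs : ∀ (σ : G ⧸ M) (y : X), y ∈ orbit M ω → π (s σ • y) = σ := by
    rintro σ y ⟨⟨m, hm⟩, rfl⟩
    show π (s σ • m • ω) = σ
    rw [← mul_smul, hπ]
    conv_rhs => rw [← hsσ σ]
    rw [eq_comm, QuotientGroup.eq, inv_mul_cancel_left]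
    exact hm
  have hMm : ∀ (a : G) (σ : G ⧸ M), (s (a • σ))⁻¹ * a * s σ ∈ M := by
    intro a σ
    rw [mul_assoc, ← QuotientGroup.eq, hsσ]
    conv_lhs => rw [← hsσ σ]
    rfl
  have hkey : ∀ (τ τ' : G ⧸ M → Fin k) (a : G),
      (∀ x, b (τ (π (a • x))) ((s (π (a • x)))⁻¹ • a • x) = b (τ' (π x)) ((s (π x))⁻¹ • x)) →
      ∀ (σ : G ⧸ M), ∀ y ∈ orbit M ω,
        b (τ (a • σ)) (((s (a • σ))⁻¹ * a * s σ) • y) = b (τ' σ) y := by
    intro τ τ' a ha σ y hy
    have h1 := ha (s σ • y)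
    rw [hπ2, hπs σ y hy, inv_smul_smul] at h1
    rw [mul_smul, mul_smul]
    exact h1
  refine ⟨fun τ x => b (τ (π x)) ((s (π x))⁻¹ • x), ?_, ?_⟩
  · intro τ τ' a ha σ
    exact hb _ _ _ (hMm a σ) (hkey τ τ' a ha σ)
  · intro τ K hK hKσ n hL g hg x
    set σ := π x with hσ
    let L : Subgroup G := K.map (MulAut.conj (s σ)⁻¹).toMonoidHom
    have hconj : ∀ a : G, (MulAut.conj (s σ)⁻¹).toMonoidHom a = (s σ)⁻¹ * a * s σ := by
      intro a
      show (s σ)⁻¹ * a * ((s σ)⁻¹)⁻¹ = _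
      rw [inv_inv]
    have hLM : L ≤ M := by
      rintro _ ⟨a, ha, rfl⟩
      rw [hconj]
      have := hMm a σ
      rwa [hKσ a ha] at this
    have hLb : ∀ m ∈ L, ∀ y ∈ orbit M ω, b (τ σ) (m • y) = b (τ σ) y := by
      rintro _ ⟨a, ha, rfl⟩ y hy
      rw [hconj]
      have := hkey τ τ a (hK a ha) σ y hy
      rwa [hKσ a ha] at this
    have hgL : (s σ)⁻¹ * g * s σ ∈ ds L n := by
      rw [← ds_map, ← hconj]
      exact ⟨g, hg, rfl⟩
    have hy := hmem x
    rw [← hσ] at hy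
    have h1 := hL (τ σ) L hLM hLb _ hgL _ hy
    rw [← mul_smul] at h1
    have e1 : (s σ)⁻¹ * g * s σ * (s σ)⁻¹ = (s σ)⁻¹ * g := by group
    rw [e1, mul_smul] at h1
    exact smul_left_cancel _ h1

/-- From the image in `Perm X` back to `G`. -/
theorem ds_act {G : Type} [Group G] {X : Type} [MulAction G X] (K : Subgroup G) (L : Subgroup (Perm X))
    (hKL : ∀ g ∈ K, toPermHom G X g ∈ L) (n : ℕ) (hn : ds L n = ⊥) (g : G) (hg : g ∈ ds K n) (x : X) :
    g • x = x := by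
  have h1 : toPermHom G X g ∈ ds (K.map (toPermHom G X)) n := by
    rw [← ds_map]
    exact ⟨g, hg, rfl⟩
  have h2 : K.map (toPermHom G X) ≤ L := by
    rintro _ ⟨a, ha, rfl⟩
    exact hKL a ha
  have h3 := ds_mono h2 n h1
  rw [hn, Subgroup.mem_bot] at h3
  exact Perm.congr_fun h3 x

/-- The image of a primitive group. -/
theorem image_prim {G : Type} [Group G] {X : Type} [MulAction G X] (hG : IsPreprimitive G X) :
    IsPreprimitive (toPermHom G X).range X := by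
  let f : X →ₑ[((toPermHom G X).rangeRestrict : G → (toPermHom G X).range)] X :=
    { toFun := id
      map_smul' := fun m x => rfl }
  exact IsPreprimitive.of_surjective (f := f) (fun x => ⟨x, rfl⟩)

/-- The action on the cosets of a maximal subgroup. -/
theorem quot_prim {G : Type} [Group G] (M : Subgroup G) (hM : IsCoatom M) :
    IsPreprimitive G (G ⧸ M) ∧ Nontrivial (G ⧸ M) := by
  have hnt : Nontrivial (G ⧸ M) := by
    obtain ⟨g, hg⟩ : ∃ g, g ∉ M := by
      by_contra h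
      push Not at h
      exact hM.1 (eq_top_iff.2 (fun g _ => h g))
    refine ⟨⟨(g : G ⧸ M), ((1 : G) : G ⧸ M), ?_⟩⟩
    intro h
    rw [QuotientGroup.eq, mul_one] at h
    exact hg (by simpa using M.inv_mem h)
  refine ⟨?_, hnt⟩
  rw [← isCoatom_stabilizer_iff_preprimitive G ((1 : G) : G ⧸ M)]
  have : stabilizer G ((1 : G) : G ⧸ M) = M := by
    ext g
    rw [mem_stabilizer_iff]
    show ((g * 1 : G) : G ⧸ M) = ((1 : G) : G ⧸ M) ↔ g ∈ M
    rw [QuotientGroup.eq, mul_one, mul_one]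
    exact M.inv_mem_iff
  rw [this]
  exact hM

end Pool.Agent.Q157.DD
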