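import Mathlib
import Pool.Agent.Q157.DD.Comp
import Pool.Agent.Q157.SC.ROne

/-!
# Project DD: the induction
-/

set_option autoImplicit false

namespace Pool.Agent.Q157.DD

open Equiv MulAction Pool.Agent.Q157.SC
open scoped commutatorElement

/-- Five inequivalent colourings. -/
def FF (G : Type) [Group G] (X : Type) [MulAction G X] : Prop :=
  ∃ c : Fin 5 → X → Bool, (∀ i j, ∀ g : G, (∀ x, c i (g • x) = c j x) → i = j) ∧
    ∀ i, ∀ g ∈ ds (stc G (c i)) 3, ∀ x : X, g • x = x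

theorem exists_tr {S : Type} [Finite S] (k : ℕ) (hk : k ≤ Nat.card S) : ∃ c : S → Bool, tr c = k := by
  classical
  have : Fintype S := Fintype.ofFinite S
  obtain ⟨T, -, hT⟩ := Finset.exists_subset_card_eq (s := (Finset.univ : Finset S)) (n := k)
    (by rw [Finset.card_univ, ← Nat.card_eq_fintype_card]; exact hk)
  refine ⟨fun x => decide (x ∈ T), ?_⟩
  have : Nat.card {w // decide (w ∈ T) = true} = Nat.card T :=
    Nat.card_congr (Equiv.subtypeEquivRight (fun w => by simp))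
  show Nat.card {w // decide (w ∈ T) = true} = k
  rw [this, Nat.card_eq_fintype_card, Fintype.card_coe, hT]

theorem ds_sub {G : Type} [Group G] (L M : Subgroup G) (h : L ≤ M) (n : ℕ) (g : G) (hg : g ∈ ds L n) :
    ∃ g' ∈ ds (L.subgroupOf M) n, (g' : G) = g := by
  have h1 : (ds (L.subgroupOf M) n).map M.subtype = ds L n := by
    rw [ds_map, Subgroup.subgroupOf_map_subtype, inf_eq_left.2 h]
  rw [← h1] at hg
  obtain ⟨g', hg', h2⟩ := hg
  exact ⟨g', hg', h2⟩

theorem ff (h1 : S_R5) (h2 : S_E5) (h3 : S_Dp) : ∀ (n : ℕ) (G : Type) [Group G] [Finite G]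
    (_ : Group.IsSolvable G) (X : Type) [Finite X] [MulAction G X] [IsPretransitive G X],
    Nat.card X = n → 4 ≤ n → FF G X := by
  classical
  intro n
  induction n using Nat.strong_induction_on with
  | _ n ih =>
  intro G _ _ hs X _ _ _ hX hn
  have hX1 : Nontrivial X := by
    rw [← Finite.one_lt_card_iff_nontrivial]
    omega
  obtain ⟨ω⟩ : Nonempty X := inferInstance
  have hne : stabilizer G ω ≠ ⊤ := by
    intro htop
    obtain ⟨x, hx⟩ := exists_ne ω
    obtain ⟨g, hg⟩ := exists_smul_eq G ω x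
    have : g ∈ stabilizer G ω := by rw [htop]; exact Subgroup.mem_top g
    rw [mem_stabilizer_iff, hg] at this
    exact hx this
  obtain ⟨M, hM, hle⟩ := (eq_top_or_exists_le_coatom (stabilizer G ω)).resolve_left hne
  by_cases hMH : M = stabilizer G ω
  · -- primitive
    have hprim : IsPreprimitive G X := by
      rw [← isCoatom_stabilizer_iff_preprimitive G ω, ← hMH]
      exact hM
    have hsT : Group.IsSolvable (toPermHom G X).range :=
      Group.isSolvable_of_surjective (toPermHom G X).rangeRestrict_surjective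
    obtain ⟨c, hc1, hc2⟩ := h1 X (toPermHom G X).range hsT (image_prim hprim) (by omega)
    refine ⟨c, ?_, ?_⟩
    · intro i j g hg
      exact hc1 i j (toPermHom G X g) ⟨g, rfl⟩ hg
    · intro i g hg x
      exact ds_act (stc G (c i)) (cst (toPermHom G X).range (c i)) (fun g hg => ⟨⟨g, rfl⟩, hg⟩) 3
        (hc2 i) g hg x
  -- the block
  have hωB : ω ∈ orbit M ω := mem_orbit_self ω
  obtain ⟨m0, hm0, hm0'⟩ := SetLike.exists_of_lt (lt_of_le_of_ne hle (Ne.symm hMH))
  have hnt : Nontrivial (orbit M ω) := by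
    refine ⟨⟨ω, hωB⟩, ⟨m0 • ω, ⟨⟨m0, hm0⟩, rfl⟩⟩, ?_⟩
    intro heq
    apply hm0'
    rw [mem_stabilizer_iff]
    exact (congrArg Subtype.val heq).symm
  have hlt : Nat.card (orbit M ω) < n := by
    obtain ⟨x, hx⟩ : ∃ x, x ∉ orbit M ω := by
      by_contra hcon
      push Not at hcon
      apply hM.1
      rw [eq_top_iff]
      intro g _
      obtain ⟨⟨m, hm⟩, hmg⟩ := hcon (g • ω)
      have hmg' : m • ω = g • ω := hmg
      have h4 : m⁻¹ * g ∈ stabilizer G ω := by
        rw [mem_stabilizer_iff, mul_smul, ← hmg', inv_smul_smul]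
      have h5 := M.mul_mem hm (hle h4)
      rwa [mul_inv_cancel_left] at h5
    rw [← hX]
    exact Finite.card_subtype_lt (p := fun x => x ∈ orbit M ω) hx
  obtain ⟨hPr, hNt⟩ := quot_prim M hM
  have hsT : Group.IsSolvable (toPermHom G (G ⧸ M)).range :=
    Group.isSolvable_of_surjective (toPermHom G (G ⧸ M)).rangeRestrict_surjective
  have hPT := image_prim hPr
  -- extension of a colouring of the block
  let ext : (orbit M ω → Bool) → X → Bool := fun c x => if hx : x ∈ orbit M ω then c ⟨x, hx⟩ else false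
  have hext : ∀ (c : orbit M ω → Bool) (y : orbit M ω), ext c y.1 = c y := by
    intro c y
    show (if hx : y.1 ∈ orbit M ω then c ⟨y.1, hx⟩ else false) = c y
    rw [dif_pos y.2]
  have hext2 : ∀ (c c' : orbit M ω → Bool) (m : G) (hm : m ∈ M),
      (∀ y ∈ orbit M ω, ext c (m • y) = ext c' y) → ∀ y : orbit M ω, c ((⟨m, hm⟩ : M) • y) = c' y := by
    intro c c' m hm h y
    rw [← hext c ((⟨m, hm⟩ : M) • y), ← hext c' y]
    exact h y.1 y.2
  by_cases hB : 4 ≤ Nat.card (orbit M ω)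
  · -- big blocks
    obtain ⟨c, hc1, hc2⟩ := ih _ hlt M inferInstance (orbit M ω) rfl hB
    obtain ⟨τ, hτ1, hτ2⟩ := h3 (G ⧸ M) (toPermHom G (G ⧸ M)).range hsT hPT
    obtain ⟨γ, hγ1, hγ2⟩ := comp ω M hle (fun i => ext (c i)) (fun i j m hm hmc =>
      hc1 i j ⟨m, hm⟩ (hext2 _ _ m hm hmc))
    refine ⟨fun i => γ (τ i), ?_, ?_⟩
    · intro i j g hg
      exact hτ1 i j (toPermHom G (G ⧸ M) g) ⟨g, rfl⟩ (hγ1 (τ i) (τ j) g hg)
    · intro i
      apply hγ2 (τ i) (stc G (γ (τ i))) (fun g hg => hg)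
      · intro g hg σ
        have h4 := hτ2 i (toPermHom G (G ⧸ M) g) ⟨⟨g, rfl⟩, hγ1 (τ i) (τ i) g hg⟩
        exact Perm.congr_fun h4 σ
      · intro j L hLM hL m hm y hy
        obtain ⟨m', hm', hmm⟩ := ds_sub L M hLM 3 m hm
        have h5 : L.subgroupOf M ≤ stc M (c j) := by
          intro l hl
          exact hext2 _ _ l.1 l.2 (hL l.1 hl)
        have h6 := hc2 j m' (ds_mono h5 3 hm') ⟨y, hy⟩
        rw [← hmm]
        exact congrArg Subtype.val h6
  · -- small blocks
    have hB3 : Nat.card (orbit M ω) ≤ 3 := by omega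
    have hB2 : 2 ≤ Nat.card (orbit M ω) := Finite.one_lt_card_iff_nontrivial.2 hnt
    obtain ⟨c0, hc0⟩ := exists_tr (S := orbit M ω) 0 (by omega)
    obtain ⟨c1, hc1⟩ := exists_tr (S := orbit M ω) 1 (by omega)
    obtain ⟨c2, hc2⟩ := exists_tr (S := orbit M ω) 2 hB2
    let c : Fin 3 → orbit M ω → Bool := ![c0, c1, c2]
    have hc : ∀ i, tr (c i) = (i : ℕ) := by
      intro i
      fin_cases i
      · exact hc0
      · exact hc1
      · exact hc2
    obtain ⟨τ, hτ1, hτ2⟩ := h2 (G ⧸ M) (toPermHom G (G ⧸ M)).range hsT hPT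
    obtain ⟨γ, hγ1, hγ2⟩ := comp ω M hle (fun i => ext (c i)) (fun i j m hm hmc => by
      have h4 := tr_perm (c i) (c j) (toPermHom M (orbit M ω) ⟨m, hm⟩) (hext2 _ _ m hm hmc)
      rw [hc, hc] at h4
      exact Fin.ext h4)
    refine ⟨fun i => γ (τ i), ?_, ?_⟩
    · intro i j g hg
      exact hτ1 i j (toPermHom G (G ⧸ M) g) ⟨g, rfl⟩ (hγ1 (τ i) (τ j) g hg)
    · intro i g hg
      have e3 : ds (stc G (γ (τ i))) 3 = ds (ds (stc G (γ (τ i))) 1) 2 := by
        rw [← ds_add]
      rw [e3] at hg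
      refine hγ2 (τ i) (ds (stc G (γ (τ i))) 1) (fun g hg => ds_le _ 1 hg) ?_ 2 ?_ g hg
      · intro g hg σ
        exact ds_act (stc G (γ (τ i))) (cst (toPermHom G (G ⧸ M)).range (τ i))
          (fun g hg => ⟨⟨g, rfl⟩, hγ1 (τ i) (τ i) g hg⟩) 1 (ds_comm (hτ2 i)) g hg σ
      · intro j L hLM hL m hm y hy
        obtain ⟨m', hm', hmm⟩ := ds_sub L M hLM 2 m hm
        have h6 := ds_act (L.subgroupOf M) (⊤ : Subgroup (Perm (orbit M ω)))
          (fun _ _ => Subgroup.mem_top _) 2 (perm_small.2.1 hB3 _) m' hm' ⟨y, hy⟩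
        rw [← hmm]
        exact congrArg Subtype.val h6

theorem upper (h1 : S_R5) (h2 : S_E5) (h3 : S_Dp) : S_up := by
  classical
  intro Ω _ G hs
  have htr : ∀ q : orbitRel.Quotient G Ω, ∃ c : orbit G (Quotient.out q) → Bool,
      ∀ g ∈ ds (stc G c) 3, ∀ x : orbit G (Quotient.out q), g • x = x := by
    intro q
    by_cases h4 : 4 ≤ Nat.card (orbit G (Quotient.out q))
    · obtain ⟨c, -, hc⟩ := ff h1 h2 h3 _ G hs (orbit G (Quotient.out q)) rfl h4
      exact ⟨c 0, hc 0⟩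
    · refine ⟨fun _ => false, ?_⟩
      intro g hg x
      exact ds_act _ (⊤ : Subgroup (Perm (orbit G (Quotient.out q)))) (fun _ _ => Subgroup.mem_top _) 3
        (perm_small.1 (by omega) _) g hg x
  choose c hc using htr
  have hmem : ∀ x : Ω, x ∈ orbit G (Quotient.out (Quotient.mk'' x : orbitRel.Quotient G Ω)) := by
    intro x
    have h1 : (orbitRel G Ω) (Quotient.out (Quotient.mk'' x : orbitRel.Quotient G Ω)) x :=
      Quotient.exact' (Quotient.out_eq' _)
    exact (orbitRel_apply.1 ((orbitRel G Ω).symm h1))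
  let γ : Ω → Bool := fun x => c (Quotient.mk'' x) ⟨x, hmem x⟩
  have hγ : ∀ (q : orbitRel.Quotient G Ω) (x : orbit G (Quotient.out q)), γ x.1 = c q x := by
    rintro q ⟨x, hx⟩
    have h1 : (Quotient.mk'' x : orbitRel.Quotient G Ω) = q := by
      rw [← Quotient.out_eq' q]
      exact Quotient.sound' hx
    subst h1
    rfl
  refine ⟨γ, ?_⟩
  rw [eq_bot_iff]
  intro g hg
  have hKG : cst G γ ≤ G := fun k hk => hk.1
  obtain ⟨g', hg', hgg⟩ := ds_sub (cst G γ) G hKG 3 g hg
  rw [Subgroup.mem_bot]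
  apply Equiv.ext
  intro x
  have h4 : (cst G γ).subgroupOf G ≤ stc G (c (Quotient.mk'' x)) := by
    intro k hk y
    rw [← hγ, ← hγ]
    exact hk.2 y.1
  have h5 := hc _ g' (ds_mono h4 3 hg') ⟨x, hmem x⟩
  rw [← hgg]
  exact congrArg Subtype.val h5

end Pool.Agent.Q157.DD
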