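import Mathlib
import Pool.Agent.Q157.DD.Ds2
import Pool.Agent.Q157.SC.Fix
import Pool.Agent.Q157.SC.Span

/-!
# Project DD: extension of a colouring from `V` to `V × ZMod p`
-/

set_option autoImplicit false

namespace Pool.Agent.Q157.DD

open Equiv Pool.Agent.Q157.SC
open scoped commutatorElement

theorem spn_mono {V : Type} [AddCommGroup V] {c c' : V → Bool} (h : ∀ x, c x = true → c' x = true)
    (hc : Spn c) : Spn c' :=
  fun x₀ W hW h1 => hc x₀ W hW (fun y hy hyx => h1 y (h y hy) hyx)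

/-- The points `(v, 0)` keep the colour `τ v`, the point `(0, 1)` gets the colour `b`, the others the colour `a`. -/
def up {V α : Type} [AddCommGroup V] [DecidableEq V] (p : ℕ) (τ : V → α) (a b : α) : V × ZMod p → α :=
  fun x => if x.2 = 0 then τ x.1 else if x = (0, 1) then b else a

theorem up_ex {V α : Type} [AddCommGroup V] [DecidableEq V] [DecidableEq α] {p : ℕ} [Fact p.Prime]
    (τ : V → α) (a b : α) (hab : a ≠ b) (x : V × ZMod p) :
    ex p (fun v => decide (τ v ≠ a)) x = decide (up p τ a b x = a) := by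
  unfold ex up
  split_ifs with h1 h2
  · simp
  · simp [h2, hab.symm]
  · simp [h2]

theorem up_fix {V α : Type} [AddCommGroup V] [Finite V] [DecidableEq V] [DecidableEq α] {p : ℕ}
    [Fact p.Prime] (τ : V → α) (a b : α) (hab : a ≠ b) (hS : Spn (fun v => decide (τ v ≠ a)))
    (f : Perm (V × ZMod p)) (hf : f ∈ ast (up p τ a b)) :
    f (0, 1) = (0, 1) ∧ ∃ g ∈ ast τ, ∀ v, f (v, 0) = (g v, 0) := by
  obtain ⟨hf1, hf2⟩ := hf
  obtain ⟨h1, g, hg1, -, hg3⟩ := fix p V (fun v => decide (τ v ≠ a)) hS f hf1 (by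
    intro x
    rw [up_ex τ a b hab, up_ex τ a b hab, hf2])
  refine ⟨h1, g, ⟨hg1, fun v => ?_⟩, hg3⟩
  have h2 := hf2 (v, 0)
  rw [hg3] at h2
  simpa [up] using h2

theorem up_one {V α : Type} [AddCommGroup V] [Finite V] [DecidableEq V] [DecidableEq α] {p : ℕ}
    [Fact p.Prime] (τ : V → α) (a b : α) (hab : a ≠ b) (hS : Spn (fun v => decide (τ v ≠ a)))
    (hτ : ∀ f ∈ ast τ, f = 1) : ∀ f ∈ ast (up p τ a b), f = 1 := by
  intro f hf
  obtain ⟨h1, g, hg, hg3⟩ := up_fix τ a b hab hS f hf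
  apply eq_one_of_fix f hf.1 _ h1
  intro v
  rw [hg3, hτ g hg]
  rfl

theorem up_comm {V α : Type} [AddCommGroup V] [Finite V] [DecidableEq V] [DecidableEq α] {p : ℕ}
    [Fact p.Prime] (τ : V → α) (a b : α) (hab : a ≠ b) (hS : Spn (fun v => decide (τ v ≠ a)))
    (hτ : ∀ f ∈ ast τ, ∀ g ∈ ast τ, f * g = g * f) :
    ∀ f ∈ ast (up p τ a b), ∀ g ∈ ast (up p τ a b), f * g = g * f := by
  intro f hf g hg
  obtain ⟨h1, f', hf', hf3⟩ := up_fix τ a b hab hS f hf
  obtain ⟨k1, g', hg', hg3⟩ := up_fix τ a b hab hS g hg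
  apply Equiv.ext
  apply closed_prod {x | (f * g) x = (g * f) x}
  · intro x hx y hy z hz
    have hx' : f (g x) = g (f x) := hx
    have hy' : f (g y) = g (f y) := hy
    have hz' : f (g z) = g (f z) := hz
    show f (g (x - y + z)) = g (f (x - y + z))
    rw [hf.1, hg.1, hf.1, hg.1, hx', hy', hz']
  · intro v
    show f (g (v, 0)) = g (f (v, 0))
    rw [hg3, hf3, hf3, hg3]
    have := Perm.congr_fun (hτ f' hf' g' hg') v
    exact congrArg (fun w => (w, (0 : ZMod p))) this
  · show f (g (0, 1)) = g (f (0, 1))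
    rw [k1, h1, k1]

/-- The derived length does not increase. -/
theorem up_ds {V α : Type} [AddCommGroup V] [Finite V] [DecidableEq V] [DecidableEq α] {p : ℕ}
    [Fact p.Prime] (τ : V → α) (a b : α) (hab : a ≠ b) (hS : Spn (fun v => decide (τ v ≠ a)))
    (n : ℕ) (hτ : ds (ast τ) n = ⊥) : ds (ast (up p τ a b)) n = ⊥ := by
  set K := ast (up p τ a b) with hK
  have hP : ∀ f ∈ K, ∀ x : V × ZMod p, x.2 = 0 → (f x).2 = 0 := by
    rintro f hf ⟨v, s⟩ hs
    obtain ⟨-, g, -, hg3⟩ := up_fix τ a b hab hS f hf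
    have hs' : s = 0 := hs
    rw [hs', hg3]
  let e : {x : V × ZMod p // x.2 = 0} ≃ V :=
    { toFun := fun x => x.1.1
      invFun := fun v => ⟨(v, 0), rfl⟩
      left_inv := fun x => Subtype.ext (Prod.ext rfl x.2.symm)
      right_inv := fun v => rfl }
  let φ : K →* Perm V := (e.permCongrHom.toMonoidHom).comp (resHom K (fun x => x.2 = 0) hP)
  have hφ : ∀ (f : K) (v : V), φ f v = (f.1 (v, 0)).1 := fun f v => rfl
  have hφL : ∀ f : K, φ f ∈ ast τ := by
    intro f
    obtain ⟨-, g, hg, hg3⟩ := up_fix τ a b hab hS f.1 f.2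
    have : φ f = g := by
      apply Equiv.ext
      intro v
      rw [hφ, hg3]
    rw [this]
    exact hg
  rw [eq_bot_iff]
  intro f hf
  have hfK := ds_le K n hf
  have h1 := ds_hom2 K φ (ast τ) hφL n hτ f hf
  rw [Subgroup.mem_bot]
  obtain ⟨h2, g, -, hg3⟩ := up_fix τ a b hab hS f hfK
  apply eq_one_of_fix f hfK.1 _ h2
  intro v
  have h3 := Perm.congr_fun h1 v
  rw [hφ] at h3
  rw [hg3] at h3 ⊢
  exact Prod.ext h3 rfl

/-- Every colour `a' ≠ a` may be used in the next step (`p ≥ 3`). -/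
theorem up_spn3 {V α : Type} [AddCommGroup V] [Finite V] [DecidableEq V] [DecidableEq α] {p : ℕ}
    [Fact p.Prime] (τ : V → α) (a b a' : α) (haa : a ≠ a') (hp : 3 ≤ p) (hV : 3 ≤ Nat.card V) :
    Spn (fun x => decide (up p τ a b x ≠ a')) := by
  apply spn_mono _ (sp3 p V (fun _ => true) hp hV)
  rintro ⟨v, s⟩ h
  by_cases hs : s = 0
  · simp [ex, hs] at h
  · by_cases h1 : ((v, s) : V × ZMod p) = (0, 1)
    · rw [h1] at h
      simp [ex] at h
    · simp only [decide_eq_true_eq]
      unfold up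
      rw [if_neg hs, if_neg h1]
      exact haa

/-- Every colour `a' ≠ a` with at least two points of `V` of another colour may be used in the next step (`p = 2`). -/
theorem up_spn2 {V α : Type} [AddCommGroup V] [Finite V] [DecidableEq V] [DecidableEq α]
    (τ : V → α) (a b a' : α) (haa : a ≠ a') (h2 : ∀ v : V, v + v = 0) (hV : 8 ≤ Nat.card V)
    (x y : V) (hxy : x ≠ y) (hx : τ x ≠ a') (hy : τ y ≠ a') :
    Spn (fun x => decide (up 2 τ a b x ≠ a')) := by
  apply spn_mono _ (sp2 V (fun v => decide (τ v = a')) h2 hV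
    ⟨x, y, hxy, by simpa using hx, by simpa using hy⟩)
  rintro ⟨v, s⟩ h
  by_cases hs : s = 0
  · simp only [ex, hs, if_true] at h
    simp only [decide_eq_true_eq]
    unfold up
    rw [if_pos hs]
    simpa using h
  · by_cases h1 : ((v, s) : V × ZMod 2) = (0, 1)
    · rw [h1] at h
      simp [ex] at h
    · simp only [decide_eq_true_eq]
      unfold up
      rw [if_neg hs, if_neg h1]
      exact haa

/-! ### Numbers -/

theorem cn_split {V α : Type} [Finite V] (c : V → α) (a : α) (P : V → Prop) :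
    Nat.card {x : V // c x = a} =
      Nat.card {x : V // c x = a ∧ P x} + Nat.card {x : V // c x = a ∧ ¬ P x} := by
  classical
  rw [← Nat.card_sum]
  apply Nat.card_congr
  refine Equiv.ofBijective (fun x => if h : P x.1 then Sum.inl ⟨x.1, x.2, h⟩ else
    Sum.inr ⟨x.1, x.2, h⟩) ⟨?_, ?_⟩
  · rintro ⟨x, hx⟩ ⟨y, hy⟩ h
    by_cases h1 : P x <;> by_cases h2 : P y <;> simp [h1, h2] at h <;> exact Subtype.ext h
  · rintro (⟨x, hx, hP⟩ | ⟨x, hx, hP⟩)
    · exact ⟨⟨x, hx⟩, by simp [hP]⟩
    · exact ⟨⟨x, hx⟩, by simp [hP]⟩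

/-- The level 0. -/
theorem cn_level {V α : Type} [AddCommGroup V] [Finite V] [DecidableEq V] {p : ℕ} [Fact p.Prime]
    (τ : V → α) (a b k : α) :
    Nat.card {x : V × ZMod p // up p τ a b x = k ∧ x.2 = 0} = cn τ k := by
  apply Nat.card_congr
  refine
    { toFun := fun x => ⟨x.1.1, by
        have h := x.2.1
        unfold up at h
        rwa [if_pos x.2.2] at h⟩
      invFun := fun v => ⟨(v.1, 0), by
        constructor
        · unfold up
          rw [if_pos rfl]
          exact v.2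
        · rfl⟩
      left_inv := fun x => Subtype.ext (Prod.ext rfl x.2.2.symm)
      right_inv := fun v => rfl }

theorem up_cn_c {V α : Type} [AddCommGroup V] [Finite V] [DecidableEq V] {p : ℕ} [Fact p.Prime]
    (τ : V → α) (a b k : α) (hka : k ≠ a) (hkb : k ≠ b) : cn (up p τ a b) k = cn τ k := by
  have hnz : NeZero p := ⟨(Fact.out : p.Prime).ne_zero⟩
  rw [cn, cn_split _ _ (fun x => x.2 = 0), cn_level]
  have : Nat.card {x : V × ZMod p // up p τ a b x = k ∧ ¬ x.2 = 0} = 0 := by
    rw [Nat.card_eq_zero]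
    left
    constructor
    rintro ⟨x, h1, h2⟩
    unfold up at h1
    rw [if_neg h2] at h1
    split_ifs at h1 with h3
    · exact hkb h1.symm
    · exact hka h1.symm
  omega

theorem up_cn_b {V α : Type} [AddCommGroup V] [Finite V] [DecidableEq V] {p : ℕ} [Fact p.Prime]
    (τ : V → α) (a b : α) (hab : a ≠ b) : cn (up p τ a b) b = cn τ b + 1 := by
  have hnz : NeZero p := ⟨(Fact.out : p.Prime).ne_zero⟩
  rw [cn, cn_split _ _ (fun x => x.2 = 0), cn_level]
  have : Nat.card {x : V × ZMod p // up p τ a b x = b ∧ ¬ x.2 = 0} = 1 := by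
    rw [Nat.card_eq_one_iff_unique]
    constructor
    · constructor
      have key : ∀ x : V × ZMod p, up p τ a b x = b → ¬ x.2 = 0 → x = (0, 1) := by
        intro x h1 h2
        by_contra h3
        unfold up at h1
        rw [if_neg h2, if_neg h3] at h1
        exact hab h1
      rintro ⟨x, h1, h2⟩ ⟨y, h3, h4⟩
      exact Subtype.ext ((key x h1 h2).trans (key y h3 h4).symm)
    · refine ⟨⟨(0, 1), ?_, ?_⟩⟩
      · unfold up
        rw [if_neg (by exact one_ne_zero), if_pos rfl]
      · exact one_ne_zero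
  omega

theorem cn_sum {V : Type} [Finite V] (k : ℕ) (c : V → Fin k) : ∑ a, cn c a = Nat.card V := by
  classical
  have : Fintype V := Fintype.ofFinite V
  have h1 : ∀ a, cn c a = (Finset.univ.filter (fun x => c x = a)).card := by
    intro a
    unfold cn
    rw [Nat.card_eq_fintype_card, Fintype.card_subtype]
  rw [Finset.sum_congr rfl (fun a _ => h1 a), Nat.card_eq_fintype_card]
  exact (Finset.card_eq_sum_card_fiberwise (fun x _ => Finset.mem_univ (c x))).symm

end Pool.Agent.Q157.DD
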