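import Mathlib
import Pool.Agent.Q157.DD.UpStep
import Pool.Agent.Q157.DD.Ind
import Pool.Agent.Q157.SC.Bas
import Pool.Agent.Q153.SC.gen

/-!
# Project DD: the steps for two colours
-/

set_option autoImplicit false

namespace Pool.Agent.Q157.DD

open Equiv Pool.Agent.Q157.SC
open scoped commutatorElement

theorem tr_compl {V : Type} [Finite V] (c : V → Bool) : tr c + tr (fun x => !c x) = Nat.card V :=
  (bas Pool.Agent.Q153.SC.gen).2.2.2.2.2 V c

theorem ds_ex {V : Type} [AddCommGroup V] [Finite V] [DecidableEq V] (p : ℕ) [Fact p.Prime]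
    (c : V → Bool) (hS : Spn c) (n : ℕ) (hc : ds (ast c) n = ⊥) : ds (ast (ex p c)) n = ⊥ := by
  have hex : up p (fun v => !c v) true false = ex p c := by
    funext x
    unfold up ex
    split_ifs with h1 h2
    · rfl
    · simp [h2]
    · simp [h2]
  rw [← hex]
  apply up_ds (fun v => !c v) true false (by decide) _ n
  · rw [ast_compl]
    exact hc
  · have : (fun v => decide ((!c v) ≠ true)) = c := by
      funext v
      cases h : c v <;> simp [h]
    rw [this]
    exact hS

theorem two_le {V : Type} [Finite V] (c : V → Bool) (a b : V) (hab : a ≠ b) (ha : c a = false)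
    (hb : c b = false) : 2 ≤ tr (fun x => !c x) := by
  have : Nat.card (Fin 2) ≤ Nat.card {x // (!c x) = true} := by
    apply Nat.card_le_card_of_injective
      (fun i : Fin 2 => if i = 0 then (⟨a, by simp [ha]⟩ : {x // (!c x) = true})
        else ⟨b, by simp [hb]⟩)
    intro i j hij
    fin_cases i <;> fin_cases j
    · rfl
    · exact absurd (congrArg Subtype.val hij) hab
    · exact absurd (congrArg Subtype.val hij).symm hab
    · rfl
  rw [Nat.card_eq_fintype_card, Fintype.card_fin] at this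
  exact this

theorem tri : S_tri := by
  classical
  intro p _ V _ _ hcase ⟨c, hc, hinj⟩
  have hp' : p.Prime := Fact.out
  have hnz : NeZero p := ⟨hp'.ne_zero⟩
  have hspn : ∀ i, Spn (ex p (c i)) := by
    intro i
    rcases hcase with ⟨hp, hV⟩ | ⟨rfl, hV, h2⟩
    · exact sp3 p V (c i) hp hV
    · exact sp2 V (c i) h2 hV ((hc i).2.2 h2)
  have hds : ∀ i, ds (ast (ex p (c i))) 3 = ⊥ := fun i => ds_ex p (c i) (hc i).1 3 (hc i).2.1
  have hsz : ∀ i, tr (ex p (c i)) + tr (c i) + 1 = Nat.card V * p := fun i => siz.1 p V (c i)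
  have hcomp : ∀ i, tr (ex p (c i)) + tr (fun x => !ex p (c i) x) = Nat.card V * p := by
    intro i
    have := tr_compl (ex p (c i))
    rwa [Nat.card_prod, Nat.card_zmod] at this
  have hbig : ∀ i j, tr (c i) + tr (c j) + 2 < Nat.card V * p := by
    have hle : ∀ i, tr (c i) ≤ Nat.card V :=
      fun i => Nat.card_le_card_of_injective Subtype.val Subtype.val_injective
    rcases hcase with ⟨hp, hV⟩ | ⟨rfl, hV, h2⟩
    · intro i j
      have h3 : Nat.card V * 3 ≤ Nat.card V * p := Nat.mul_le_mul_left _ hp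
      have := hle i
      have := hle j
      omega
    · have hle2 : ∀ i, tr (c i) + 2 ≤ Nat.card V := by
        intro i
        obtain ⟨a, b, hab, ha, hb⟩ := (hc i).2.2 h2
        have h3 := two_le (c i) a b hab ha hb
        have h4 := tr_compl (c i)
        omega
      intro i j
      have := hle2 i
      have := hle2 j
      omega
  have hne : ∀ i j, tr (ex p (c i)) = tr (ex p (c j)) → i = j := by
    intro i j h
    apply hinj
    have h1 := hsz i
    have h2 := hsz j
    omega
  have hne2 : ∀ i j, tr (ex p (c i)) ≠ tr (fun x => !ex p (c j) x) := by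
    intro i j h
    have h1 := hsz i
    have h2 := hsz j
    have h3 := hcomp i
    have h4 := hcomp j
    have h5 := hbig i j
    omega
  have hne3 : ∀ i j, tr (fun x => !ex p (c i) x) = tr (fun x => !ex p (c j) x) → i = j := by
    intro i j h
    apply hne
    have h3 := hcomp i
    have h4 := hcomp j
    omega
  refine ⟨⟨fun i => ex p (c i), fun i => ⟨hspn i, hds i, fun _ => ?_⟩, hne⟩, ?_⟩
  · obtain ⟨v, hv⟩ : ∃ v, c i v = true := by
      by_contra hcon
      push Not at hcon
      exact (hc i).1 0 ∅ (fun x hx => hx.elim) (fun y hy _ => absurd hy (hcon y)) 0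
    refine ⟨(0, 1), (v, 0), ?_, ?_, ?_⟩
    · intro h
      exact one_ne_zero (congrArg Prod.snd h)
    · exact (ex_false (c i) _).2 (Or.inr rfl)
    · exact (ex_false (c i) _).2 (Or.inl ⟨rfl, hv⟩)
  · refine ⟨![ex p (c 0), ex p (c 1), ex p (c 2), fun x => !ex p (c 0) x, fun x => !ex p (c 1) x],
      ?_, ?_⟩
    · intro i
      fin_cases i
      · exact hds 0
      · exact hds 1
      · exact hds 2
      · show ds (ast (fun x => !ex p (c 0) x)) 3 = ⊥
        rw [ast_compl]
        exact hds 0
      · show ds (ast (fun x => !ex p (c 1) x)) 3 = ⊥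
        rw [ast_compl]
        exact hds 1
    · intro i j hij
      fin_cases i <;> fin_cases j <;> first
        | rfl
        | exact absurd (hne _ _ hij) (by decide)
        | exact absurd hij (hne2 _ _)
        | exact absurd hij.symm (hne2 _ _)
        | exact absurd (hne3 _ _ hij) (by decide)

/-! ### The line -/

/-- A closed set containing two points of `ZMod p`. -/
theorem line_span {p : ℕ} [Fact p.Prime] (W : Set (ZMod p)) (hW : Closed W) (x y : ZMod p)
    (hxy : x ≠ y) (hx : x ∈ W) (hy : y ∈ W) : ∀ v, v ∈ W := by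
  have key : ∀ k : ℕ, x + (k : ZMod p) * (y - x) ∈ W := by
    intro k
    induction k with
    | zero => simpa using hx
    | succ k ih =>
      have := hW _ ih _ hx _ hy
      have h1 : x + (k : ZMod p) * (y - x) - x + y = x + ((k + 1 : ℕ) : ZMod p) * (y - x) := by
        push_cast
        ring
      rwa [h1] at this
  have hnz : NeZero p := ⟨(Fact.out : p.Prime).ne_zero⟩
  intro v
  have hd : y - x ≠ 0 := sub_ne_zero.2 hxy.symm
  have h2 := key ((v - x) / (y - x)).val
  rw [ZMod.natCast_zmod_val, div_mul_cancel₀ _ hd, add_sub_cancel] at h2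
  exact h2

theorem exists_two {V : Type} [Finite V] (c : V → Bool) (h : 3 ≤ tr c) (x₀ : V) :
    ∃ x y, x ≠ y ∧ x ≠ x₀ ∧ y ≠ x₀ ∧ c x = true ∧ c y = true := by
  classical
  have : Fintype V := Fintype.ofFinite V
  have h1 : tr c = (Finset.univ.filter (fun x => c x = true)).card := by
    unfold tr
    rw [Nat.card_eq_fintype_card, Fintype.card_subtype]
  rw [h1] at h
  have h2 : 1 < ((Finset.univ.filter (fun x => c x = true)).erase x₀).card := by
    have := Finset.pred_card_le_card_erase (s := Finset.univ.filter (fun x => c x = true)) (a := x₀)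
    omega
  obtain ⟨x, hx, y, hy, hxy⟩ := Finset.one_lt_card.1 h2
  simp only [Finset.mem_erase, Finset.mem_filter, Finset.mem_univ, true_and] at hx hy
  exact ⟨x, y, hxy, hx.1, hy.1, hx.2, hy.2⟩

theorem line_spn {p : ℕ} [Fact p.Prime] (c : ZMod p → Bool) (h : 3 ≤ tr c) : Spn c := by
  have hnz : NeZero p := ⟨(Fact.out : p.Prime).ne_zero⟩
  intro x₀ W hW h1
  obtain ⟨x, y, hxy, hx, hy, hcx, hcy⟩ := exists_two c h x₀
  exact line_span W hW x y hxy (h1 x hcx hx) (h1 y hcy hy)

theorem line_form {p : ℕ} [Fact p.Prime] (f : ZMod p → ZMod p) (hf : Aff f) (x : ZMod p) :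
    f x = f 0 + x * (f 1 - f 0) := by
  have hnz : NeZero p := ⟨(Fact.out : p.Prime).ne_zero⟩
  have key : ∀ k : ℕ, f (k : ZMod p) = f 0 + (k : ZMod p) * (f 1 - f 0) := by
    intro k
    induction k with
    | zero => simp
    | succ k ih =>
      have h1 := hf (k : ZMod p) 0 1
      have h2 : (k : ZMod p) - 0 + 1 = ((k + 1 : ℕ) : ZMod p) := by push_cast; ring
      rw [h2, ih] at h1
      rw [h1]
      push_cast
      ring
  have := key x.val
  rwa [ZMod.natCast_zmod_val] at this

theorem line {p : ℕ} [Fact p.Prime] (K : Subgroup (Perm (ZMod p))) (hK : ∀ f ∈ K, Aff f) :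
    ds K 2 = ⊥ := by
  have hm : ∀ f : Perm (ZMod p), ∀ g : Perm (ZMod p), Aff f →
      (f * g) 1 - (f * g) 0 = (f 1 - f 0) * (g 1 - g 0) := by
    intro f g hf
    show f (g 1) - f (g 0) = _
    rw [line_form f hf (g 1), line_form f hf (g 0)]
    ring
  let L : Subgroup (Perm (ZMod p)) :=
    { carrier := {f | f ∈ K ∧ f 1 - f 0 = 1}
      one_mem' := ⟨K.one_mem, by show (1 : ZMod p) - 0 = 1; ring⟩
      mul_mem' := by
        rintro f g ⟨hf, hf'⟩ ⟨hg, hg'⟩
        refine ⟨K.mul_mem hf hg, ?_⟩
        rw [hm f g (hK f hf), hf', hg', mul_one]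
      inv_mem' := by
        rintro f ⟨hf, hf'⟩
        refine ⟨K.inv_mem hf, ?_⟩
        have h1 := hm f f⁻¹ (hK f hf)
        rw [mul_inv_cancel, hf', one_mul] at h1
        rw [← h1]
        show (1 : ZMod p) - 0 = 1
        ring }
  have h1 : ds K 1 ≤ L := by
    rw [ds_succ, ds_zero, Subgroup.commutator_le]
    intro f hf g hg
    have hfg : ⁅f, g⁆ ∈ K := K.mul_mem (K.mul_mem (K.mul_mem hf hg) (K.inv_mem hf)) (K.inv_mem hg)
    refine ⟨hfg, ?_⟩
    have e1 : ⁅f, g⁆ * (g * f) = f * g := by
      rw [commutatorElement_def]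
      group
    have h2 := hm ⁅f, g⁆ (g * f) (hK _ hfg)
    rw [e1, hm f g (hK f hf), hm g f (hK g hg)] at h2
    have hne : ∀ u : Perm (ZMod p), u 1 - u 0 ≠ 0 := by
      intro u hu
      have := u.injective (sub_eq_zero.1 hu)
      exact one_ne_zero this
    have h3 : (g 1 - g 0) * (f 1 - f 0) ≠ 0 := mul_ne_zero (hne g) (hne f)
    have h4 : (⁅f, g⁆ 1 - ⁅f, g⁆ 0) * ((g 1 - g 0) * (f 1 - f 0)) = 1 * ((g 1 - g 0) * (f 1 - f 0)) := by
      rw [← h2]
      ring
    exact mul_right_cancel₀ h3 h4
  have h2 : ds L 1 = ⊥ := by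
    apply ds_comm
    rintro f ⟨hf, hf'⟩ g ⟨hg, hg'⟩
    apply Equiv.ext
    intro x
    show f (g x) = g (f x)
    rw [line_form f (hK f hf) (g x), line_form g (hK g hg) (f x), line_form f (hK f hf) x,
      line_form g (hK g hg) x, hf', hg']
    ring
  have h3 : ds K 2 = ds (ds K 1) 1 := by rw [← ds_add]
  rw [h3]
  exact ds_bot_mono h1 le_rfl h2

theorem tri_line (p : ℕ) [Fact p.Prime] (hp : 5 ≤ p) : Tri (ZMod p) := by
  have hnz : NeZero p := ⟨(Fact.out : p.Prime).ne_zero⟩
  have hcard : Nat.card (ZMod p) = p := Nat.card_zmod p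
  have hex : ∀ i : Fin 3, ∃ c : ZMod p → Bool, tr c = 3 + i := fun i => exists_tr _ (by omega)
  choose c hc using hex
  refine ⟨c, fun i => ⟨line_spn (c i) (by rw [hc]; omega), ?_, ?_⟩, ?_⟩
  · exact ds_bot_mono le_rfl (by norm_num) (line (ast (c i)) (fun f hf => hf.1))
  · intro h
    exfalso
    have h1 := h 1
    have h2 : ((2 : ℕ) : ZMod p) = 0 := by
      push_cast
      rw [← h1]
      ring
    rw [ZMod.natCast_eq_zero_iff] at h2
    have := Nat.le_of_dvd (by norm_num) h2
    omega
  · intro i j h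
    rw [hc, hc] at h
    exact Fin.ext (by omega)

theorem five_small {V : Type} [AddCommGroup V] [Finite V] (hV : 4 ≤ Nat.card V)
    (h : ∀ c : V → Bool, ds (ast c) 3 = ⊥) : Five V := by
  have hex : ∀ i : Fin 5, ∃ c : V → Bool, tr c = i := fun i => exists_tr _ (by omega)
  choose c hc using hex
  refine ⟨c, fun i => h _, ?_⟩
  intro i j h
  rw [hc, hc] at h
  exact Fin.ext h

end Pool.Agent.Q157.DD
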