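import Mathlib
import Pool.Agent.Q157.DD.Tri
import Pool.Agent.Q157.SC.AffAll

/-!
# Project DD: isomorphisms, all the vector spaces (two colours)
-/

set_option autoImplicit false

namespace Pool.Agent.Q157.DD

open Equiv Pool.Agent.Q157.SC
open scoped commutatorElement

theorem ds_inj {G H : Type} [Group G] [Group H] (f : G →* H) (hf : Function.Injective f)
    (K : Subgroup G) (L : Subgroup H) (h : K.map f ≤ L) (n : ℕ) (hn : ds L n = ⊥) : ds K n = ⊥ := by
  have h1 : (ds K n).map f = ⊥ := by
    rw [ds_map]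
    exact ds_bot_mono h le_rfl hn
  rwa [Subgroup.map_eq_bot_iff_of_injective _ hf] at h1

/-- Transport of the stabiliser. -/
theorem ast_map {V W α : Type} [AddCommGroup V] [AddCommGroup W] (e : V ≃+ W) (c : V → α)
    (f : Perm W) (hf : f ∈ ast (fun w => c (e.symm w))) :
    e.symm.toEquiv.permCongrHom f ∈ ast c := by
  obtain ⟨h1, h2⟩ := hf
  have h3 : ∀ x, (e.symm.toEquiv.permCongrHom f) x = e.symm (f (e x)) := fun x => rfl
  refine ⟨?_, ?_⟩
  · intro x y z
    rw [h3, h3, h3, h3, map_add, map_sub, h1, map_add, map_sub]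
  · intro x
    rw [h3]
    have h4 : c (e.symm (f (e x))) = c (e.symm (e x)) := h2 (e x)
    rw [h4, AddEquiv.symm_apply_apply]

theorem ds_equiv {V W α : Type} [AddCommGroup V] [AddCommGroup W] (e : V ≃+ W) (c : V → α) (n : ℕ)
    (h : ds (ast c) n = ⊥) : ds (ast (fun w => c (e.symm w))) n = ⊥ := by
  apply ds_inj e.symm.toEquiv.permCongrHom.toMonoidHom e.symm.toEquiv.permCongrHom.injective _ (ast c)
    _ n h
  rintro _ ⟨f, hf, rfl⟩
  exact ast_map e c f hf

theorem cn_equiv {V W α : Type} [AddCommGroup V] [AddCommGroup W] (e : V ≃+ W) (c : V → α) (a : α) :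
    cn (fun w => c (e.symm w)) a = cn c a :=
  Nat.card_congr (e.symm.toEquiv.subtypeEquiv (fun _ => Iff.rfl))

theorem tri_equiv {V W : Type} [AddCommGroup V] [AddCommGroup W] (e : V ≃+ W) (h : Tri V) : Tri W := by
  obtain ⟨c, h1, h2⟩ := h
  refine ⟨fun i x => c i (e.symm x), ?_, ?_⟩
  · intro i
    obtain ⟨k1, k2, k3⟩ := h1 i
    refine ⟨spn_equiv e (c i) k1, ds_equiv e (c i) 3 k2, ?_⟩
    intro hW
    obtain ⟨a, b, hab, ha, hb⟩ := k3 (by
      intro v
      apply e.injective
      rw [map_add, map_zero]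
      exact hW _)
    exact ⟨e a, e b, fun h => hab (e.injective h), by simpa using ha, by simpa using hb⟩
  · intro i j hij
    apply h2
    have h3 : ∀ i, tr (fun x => c i (e.symm x)) = tr (c i) := fun i => tr_equiv e.toEquiv (c i)
    rw [← h3 i, ← h3 j]
    exact hij

theorem five_equiv {V W : Type} [AddCommGroup V] [AddCommGroup W] (e : V ≃+ W) (h : Five V) :
    Five W := by
  obtain ⟨c, h1, h2⟩ := h
  refine ⟨fun i x => c i (e.symm x), fun i => ds_equiv e (c i) 3 (h1 i), ?_⟩
  intro i j hij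
  apply h2
  have h3 : ∀ i, tr (fun x => c i (e.symm x)) = tr (c i) := fun i => tr_equiv e.toEquiv (c i)
  rw [← h3 i, ← h3 j]
  exact hij

theorem comm_equiv {V W α : Type} [AddCommGroup V] [AddCommGroup W] (e : V ≃+ W) (c : V → α)
    (h : ∀ f ∈ ast c, ∀ g ∈ ast c, f * g = g * f) :
    ∀ f ∈ ast (fun w => c (e.symm w)), ∀ g ∈ ast (fun w => c (e.symm w)), f * g = g * f := by
  intro f hf g hg
  apply e.symm.toEquiv.permCongrHom.injective
  rw [map_mul, map_mul]
  exact h _ (ast_map e c f hf) _ (ast_map e c g hg)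

theorem one_equiv {V W α : Type} [AddCommGroup V] [AddCommGroup W] (e : V ≃+ W) (c : V → α)
    (h : ∀ f ∈ ast c, f = 1) : ∀ f ∈ ast (fun w => c (e.symm w)), f = 1 := by
  intro f hf
  apply e.symm.toEquiv.permCongrHom.injective
  rw [map_one]
  exact h _ (ast_map e c f hf)

theorem card_v (p d : ℕ) [Fact p.Prime] : Nat.card (Fin d → ZMod p) = p ^ d := by
  have hnz : NeZero p := ⟨(Fact.out : p.Prime).ne_zero⟩
  rw [Nat.card_eq_fintype_card, Fintype.card_fun, ZMod.card, Fintype.card_fin]

theorem A5 (h1 : S_tri) (h2 : S_n9) (h3 : S_d7) (h4 : S_d8) (h5 : S_d6) (h6 : S_c7) (h7 : S_c8) :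
    S_A5 := by
  have hcard : Nat.card V4 = 16 := by
    simp [V4, Nat.card_prod, Nat.card_zmod]
  have t7' := tr_compl c7
  have t6' := tr_compl c6
  rw [h6.2, hcard] at t7'
  rw [h5.2, hcard] at t6'
  have tri4 : Tri V4 := by
    refine ⟨![c7, fun x => !c7 x, c8], ?_, ?_⟩
    · intro i
      fin_cases i
      · exact ⟨h3.2.1, h3.1, fun _ => ⟨((1, 0), (1, 0)), ((0, 1), (0, 1)), by decide, by decide, by decide⟩⟩
      · refine ⟨h3.2.2, ?_, fun _ => ⟨((1, 0), (0, 0)), ((0, 1), (0, 0)), by decide, by decide,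
          by decide⟩⟩
        show ds (ast (fun x => !c7 x)) 3 = ⊥
        rw [ast_compl]
        exact h3.1
      · exact ⟨h7.2.1, h4, fun _ => ⟨((1, 0), (1, 0)), ((0, 1), (0, 1)), by decide, by decide, by decide⟩⟩
    · have e01 : tr c7 ≠ tr (fun x => !c7 x) := by have := h6.2; omega
      have e02 : tr c7 ≠ tr c8 := by have := h6.2; have := h7.2.2; omega
      have e12 : tr (fun x => !c7 x) ≠ tr c8 := by have := h7.2.2; omega
      intro i j hij
      fin_cases i <;> fin_cases j
      · rfl
      · exact absurd hij e01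
      · exact absurd hij e02
      · exact absurd hij.symm e01
      · rfl
      · exact absurd hij e12
      · exact absurd hij.symm e02
      · exact absurd hij.symm e12
      · rfl
  have five4 : Five V4 := by
    refine ⟨![c7, fun x => !c7 x, c8, c6, fun x => !c6 x], ?_, ?_⟩
    · intro i
      fin_cases i
      · exact h3.1
      · show ds (ast (fun x => !c7 x)) 3 = ⊥
        rw [ast_compl]
        exact h3.1
      · exact h4
      · exact h5.1
      · show ds (ast (fun x => !c6 x)) 3 = ⊥
        rw [ast_compl]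
        exact h5.1
    · have e6 := h5.2
      have e7 := h6.2
      have e8 := h7.2.2
      have key : ∀ i : Fin 5, tr ((![c7, fun x => !c7 x, c8, c6, fun x => !c6 x] : Fin 5 → V4 → Bool) i) =
          (![7, 9, 8, 6, 10] : Fin 5 → ℕ) i := by
        intro i
        fin_cases i
        · exact e7
        · show tr (fun x => !c7 x) = 9
          omega
        · exact e8
        · exact e6
        · show tr (fun x => !c6 x) = 10
          omega
      intro i j hij
      rw [key, key] at hij
      revert i j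
      decide
  have step3 : ∀ (p d : ℕ) [Fact p.Prime], 3 ≤ p → Tri (Fin (d + 1) → ZMod p) →
      Tri (Fin (d + 2) → ZMod p) ∧ Five (Fin (d + 2) → ZMod p) := by
    intro p d _ hp hT
    have hp' : p.Prime := Fact.out
    have hnz : NeZero p := ⟨hp'.ne_zero⟩
    obtain ⟨k1, k2⟩ := h1 p (Fin (d + 1) → ZMod p) (Or.inl ⟨hp, by
        rw [card_v]
        calc 3 ≤ p := hp
          _ = p ^ 1 := (pow_one p).symm
          _ ≤ p ^ (d + 1) := Nat.pow_le_pow_right hp'.pos (by omega)⟩) hT
    obtain ⟨e⟩ := equivS (p := p) (d + 1)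
    exact ⟨tri_equiv e k1, five_equiv e k2⟩
  have all3 : ∀ (p : ℕ) [Fact p.Prime] (n : ℕ), 3 ≤ p → Tri (Fin (n + 1) → ZMod p) → ∀ d,
      Tri (Fin (n + 1 + d) → ZMod p) ∧ (1 ≤ d → Five (Fin (n + 1 + d) → ZMod p)) := by
    intro p _ n hp h0 d
    induction d with
    | zero => exact ⟨h0, fun h => absurd h (by omega)⟩
    | succ d ih =>
      obtain ⟨k1, k2⟩ := step3 p (n + d) hp (by
        have h8 : n + d + 1 = n + 1 + d := by ring
        rw [h8]
        exact ih.1)
      have h8 : n + d + 2 = n + 1 + (d + 1) := by ring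
      rw [h8] at k1 k2
      exact ⟨k1, fun _ => k2⟩
  have all2 : ∀ d, Tri (Fin (4 + d) → ZMod 2) ∧ Five (Fin (4 + d) → ZMod 2) := by
    intro d
    induction d with
    | zero =>
      obtain ⟨e⟩ := equivFour
      exact ⟨tri_equiv e tri4, five_equiv e five4⟩
    | succ d ih =>
      obtain ⟨k1, k2⟩ := h1 2 (Fin (4 + d) → ZMod 2) (Or.inr ⟨rfl, by
          rw [card_v]
          calc 8 = 2 ^ 3 := by norm_num
            _ ≤ 2 ^ (4 + d) := Nat.pow_le_pow_right (by norm_num) (by omega), by
          intro v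
          funext i
          show v i + v i = 0
          have : ∀ t : ZMod 2, t + t = 0 := by decide
          exact this _⟩) ih.1
      obtain ⟨e⟩ := equivS (p := 2) (4 + d)
      exact ⟨tri_equiv e k1, five_equiv e k2⟩
  intro p d hp hd hne
  have hp' : p.Prime := hp.out
  have hd1 : d ≠ 0 := by
    rintro rfl
    norm_num at hd
  by_cases h2p : p = 2
  · subst h2p
    have hd3 : d ≠ 3 := fun h => hne ⟨rfl, h⟩
    obtain h | h | h : d = 1 ∨ d = 2 ∨ 4 ≤ d := by omega
    · subst h
      norm_num at hd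
    · subst h
      apply five_small (by rw [card_v]; norm_num)
      intro c
      exact perm_small.1 (by rw [card_v]; norm_num) _
    · obtain ⟨e, rfl⟩ := Nat.exists_eq_add_of_le h
      exact (all2 e).2
  by_cases h3p : p = 3
  · subst h3p
    obtain ⟨e2⟩ := equivTwo (p := 3)
    obtain h | h | h : d = 1 ∨ d = 2 ∨ 3 ≤ d := by omega
    · subst h
      norm_num at hd
    · subst h
      exact five_equiv e2 h2.2
    · obtain ⟨e, rfl⟩ := Nat.exists_eq_add_of_le h
      have h8 := (all3 3 1 le_rfl (tri_equiv e2 h2.1) (e + 1)).2 (by omega)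
      have h9 : 1 + 1 + (e + 1) = 3 + e := by ring
      rw [h9] at h8
      exact h8
  have h5p : 5 ≤ p := by
    have h2 := hp'.two_le
    by_contra hcon
    have h4 : p = 4 := by omega
    rw [h4] at hp'
    exact absurd hp' (by norm_num)
  obtain ⟨e1⟩ := equivOne (p := p)
  obtain h | h : d = 1 ∨ 2 ≤ d := by omega
  · subst h
    have hnz : NeZero p := ⟨hp'.ne_zero⟩
    apply five_equiv e1
    apply five_small (by rw [Nat.card_zmod]; omega)
    intro c
    exact ds_bot_mono le_rfl (by norm_num) (line (ast c) (fun f hf => hf.1))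
  · obtain ⟨e, rfl⟩ := Nat.exists_eq_add_of_le h
    have h8 := (all3 p 0 (by omega) (tri_equiv e1 (tri_line p h5p)) (e + 1)).2 (by omega)
    have h9 : 0 + 1 + (e + 1) = 2 + e := by ring
    rw [h9] at h8
    exact h8

end Pool.Agent.Q157.DD
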