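import Mathlib
import Pool.Agent.Q157.DD.Equ

/-!
# Project DD: five colours
-/

set_option autoImplicit false

namespace Pool.Agent.Q157.DD

open Equiv Pool.Agent.Q157.SC
open scoped commutatorElement

theorem z2 : ∀ t : ZMod 2, t + t = 0 := by decide

/-- Everything but one point is strongly spanning. -/
theorem spn_but {V : Type} [AddCommGroup V] [Finite V] [DecidableEq V] (h : 5 ≤ Nat.card V) (z : V) :
    Spn (fun v => decide (v ≠ z)) := by
  intro x₀ W hW h1 t
  have h1' : ∀ y, y ≠ z → y ≠ x₀ → y ∈ W := fun y hy hyx => h1 y (by simpa using hy) hyx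
  obtain ⟨w, hw⟩ := avoid ({z, x₀} : Finset V) (lt_of_le_of_lt Finset.card_le_two (by omega))
  simp only [Finset.mem_insert, Finset.mem_singleton, not_or] at hw
  obtain ⟨u, hu⟩ := avoid ({z - t, x₀ - t, z - w, x₀ - w} : Finset V)
    (lt_of_le_of_lt Finset.card_le_four (by omega))
  simp only [Finset.mem_insert, Finset.mem_singleton, not_or] at hu
  obtain ⟨hu1, hu2, hu3, hu4⟩ := hu
  have k1 := h1' (u + t) (fun h => hu1 (by rw [← h]; abel)) (fun h => hu2 (by rw [← h]; abel))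
  have k2 := h1' (u + w) (fun h => hu3 (by rw [← h]; abel)) (fun h => hu4 (by rw [← h]; abel))
  have k3 := h1' w hw.1 hw.2
  have k4 := hW _ k1 _ k2 _ k3
  have k5 : u + t - (u + w) + w = t := by abel
  rwa [k5] at k4

theorem ast_inj {V α β : Type} [AddCommGroup V] (c : V → α) (g : α → β) (hg : Function.Injective g) :
    ast (fun v => g (c v)) = ast c := by
  ext f
  constructor
  · rintro ⟨h1, h2⟩
    exact ⟨h1, fun x => hg (h2 x)⟩
  · rintro ⟨h1, h2⟩
    exact ⟨h1, fun x => congrArg g (h2 x)⟩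

theorem cn_perm {V α : Type} (c : V → α) (g : Perm α) (a : α) :
    cn (fun v => g (c v)) a = cn c (g.symm a) :=
  Nat.card_congr (Equiv.subtypeEquivRight (fun _ => g.apply_eq_iff_eq_symm_apply))

/-- Five colourings from one. -/
theorem AD_of {V : Type} [AddCommGroup V] (τ : V → Fin 5) (h1 : ∀ f ∈ ast τ, f = 1) (a b : Fin 5)
    (hab : cn τ a ≠ cn τ b) : AD V := by
  refine ⟨fun i v => Equiv.addRight i (τ v), ?_, ?_⟩
  · intro i f hf
    rw [ast_inj τ (Equiv.addRight i) (Equiv.addRight i).injective] at hf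
    exact h1 f hf
  · intro i j hij
    by_contra hne
    apply hab
    have h2 : ∀ x : Fin 5, cn τ (x - i) = cn τ (x - j) := by
      intro x
      have := hij x
      rw [cn_perm, cn_perm] at this
      simpa [sub_eq_add_neg] using this
    have h3 : ∀ x : Fin 5, cn τ x = cn τ (x + (i - j)) := by
      intro x
      have := h2 (x + i)
      have e1 : x + i - i = x := add_sub_cancel_right x i
      have e2 : x + i - j = x + (i - j) := add_sub_assoc x i j
      rwa [e1, e2] at this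
    have h4 : ∀ (k : ℕ) (x : Fin 5), cn τ x = cn τ (x + k • (i - j)) := by
      intro k
      induction k with
      | zero => intro x; simp
      | succ k ih =>
        intro x
        rw [ih x, h3 (x + k • (i - j)), succ_nsmul, add_assoc]
    have h5 : ∀ r x y : Fin 5, r ≠ 0 → ∃ k : Fin 5, y = x + (k : ℕ) • r := by decide
    obtain ⟨k, hk⟩ := h5 (i - j) a b (sub_ne_zero.2 hne)
    rw [h4 k a, ← hk]

/-- A closed set containing the frame. -/
theorem frame_span {p d : ℕ} [Fact p.Prime] (W : Set (Fin d → ZMod p)) (hW : Closed W) (h0 : 0 ∈ W)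
    (h1 : ∀ i, Pi.single i 1 ∈ W) : ∀ v, v ∈ W := by
  have hnz : NeZero p := ⟨(Fact.out : p.Prime).ne_zero⟩
  let A : AddSubgroup (Fin d → ZMod p) :=
    { carrier := W
      zero_mem' := h0
      add_mem' := by
        intro x y hx hy
        have := hW x hx 0 h0 y hy
        rwa [sub_zero] at this
      neg_mem' := by
        intro x hx
        have := hW 0 h0 x hx 0 h0
        rwa [zero_sub, add_zero] at this }
  have hA : ∀ x, x ∈ A ↔ x ∈ W := fun x => Iff.rfl
  intro v
  rw [← hA, ← Finset.univ_sum_single v]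
  apply A.sum_mem
  intro i _
  have h2 : (Pi.single i (v i) : Fin d → ZMod p) = (v i).val • (Pi.single i 1 : Fin d → ZMod p) := by
    rw [← Pi.single_smul, nsmul_eq_mul, mul_one, ZMod.natCast_zmod_val]
  rw [h2]
  exact A.nsmul_mem ((hA _).2 (h1 i)) _

/-- The frame. -/
def fr (p d : ℕ) : Fin (d + 1) → Fin d → ZMod p := Fin.cons 0 (fun i => Pi.single i 1)

theorem fr_inj (p d : ℕ) [Fact p.Prime] : Function.Injective (fr p d) := by
  have h10 : (1 : ZMod p) ≠ 0 := one_ne_zero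
  unfold fr
  rw [Fin.cons_injective_iff]
  constructor
  · rintro ⟨i, hi⟩
    have := congrFun hi i
    simp at this
  · intro i j hij
    by_contra hne
    have := congrFun hij i
    simp only [Pi.single_eq_same, Pi.single_apply] at this
    rw [if_neg hne] at this
    exact h10 this

theorem cn_one {V α : Type} (τ : V → α) (a : α) (z : V) (h1 : τ z = a) (h2 : ∀ v, τ v = a → v = z) :
    cn τ a = 1 := by
  unfold cn
  rw [Nat.card_eq_one_iff_unique]
  exact ⟨⟨fun x y => Subtype.ext ((h2 _ x.2).trans (h2 _ y.2).symm)⟩, ⟨⟨z, h1⟩⟩⟩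

/-- The frame has different colours. -/
theorem frame_col (p d : ℕ) [Fact p.Prime] (hd : d ≤ 3) : ∃ τ : (Fin d → ZMod p) → Fin 5,
    (∀ f ∈ ast τ, f = 1) ∧ (∀ j : Fin (d + 1), τ (fr p d j) = ⟨(j : ℕ) + 1, by omega⟩) ∧
    (∀ j : Fin (d + 1), ∀ v, τ v = ⟨(j : ℕ) + 1, by omega⟩ → v = fr p d j) ∧
    (∀ a : Fin 5, d + 1 < a → cn τ a = 0) := by
  classical
  let τ : (Fin d → ZMod p) → Fin 5 := fun v =>
    if h : ∃ j, fr p d j = v then ⟨(h.choose : ℕ) + 1, by omega⟩ else 0
  have k1 : ∀ j : Fin (d + 1), τ (fr p d j) = ⟨(j : ℕ) + 1, by omega⟩ := by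
    intro j
    have hex : ∃ j', fr p d j' = fr p d j := ⟨j, rfl⟩
    have h2 : hex.choose = j := fr_inj p d hex.choose_spec
    show (if h : ∃ j', fr p d j' = fr p d j then (⟨(h.choose : ℕ) + 1, by omega⟩ : Fin 5) else 0) = _
    rw [dif_pos hex]
    apply Fin.ext
    show (hex.choose : ℕ) + 1 = j + 1
    rw [h2]
  have k2 : ∀ j : Fin (d + 1), ∀ v, τ v = ⟨(j : ℕ) + 1, by omega⟩ → v = fr p d j := by
    intro j v hv
    by_cases hex : ∃ j', fr p d j' = v
    · obtain ⟨j', rfl⟩ := hex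
      rw [k1] at hv
      have h3 := congrArg Fin.val hv
      have h4 : (j' : ℕ) = j := by simpa using h3
      rw [Fin.ext h4]
    · exfalso
      have h3 : τ v = 0 := dif_neg hex
      rw [h3] at hv
      have h4 := congrArg Fin.val hv
      simp at h4
  refine ⟨τ, ?_, k1, k2, ?_⟩
  · intro f hf
    have h3 : ∀ j, f (fr p d j) = fr p d j := by
      intro j
      apply k2
      rw [hf.2, k1]
    have h4 := aff_ext f (1 : Perm (Fin d → ZMod p)) (Set.range (fr p d)) hf.1 (fun _ _ _ => rfl) (by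
      intro U hU hs
      apply frame_span U hU
      · exact hs ⟨0, rfl⟩
      · intro i
        exact hs ⟨i.succ, by simp [fr]⟩) (by
      rintro _ ⟨j, rfl⟩
      exact h3 j)
    exact DFunLike.coe_injective h4
  · intro a ha
    unfold cn
    rw [Nat.card_eq_zero]
    left
    constructor
    rintro ⟨v, hv⟩
    by_cases hex : ∃ j', fr p d j' = v
    · obtain ⟨j', rfl⟩ := hex
      rw [k1] at hv
      rw [← hv] at ha
      simp only at ha
      omega
    · have h3 : τ v = 0 := dif_neg hex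
      rw [h3] at hv
      rw [← hv] at ha
      simp at ha

/-- The invariant. -/
def ID (V : Type) [AddCommGroup V] : Prop :=
  ∃ (τ : V → Fin 5) (a b : Fin 5), ((a = 0 ∧ b = 1) ∨ (a = 1 ∧ b = 0)) ∧
    Spn (fun v => decide (τ v ≠ a)) ∧ (∀ f ∈ ast τ, f = 1) ∧ cn τ 2 = 1 ∧ cn τ 3 = 1

theorem ID_step {p : ℕ} [Fact p.Prime] {V : Type} [AddCommGroup V] [Finite V] (hV : 8 ≤ Nat.card V)
    (hp : 3 ≤ p ∨ p = 2 ∧ ∀ v : V, v + v = 0) (h : ID V) : ID (V × ZMod p) := by
  classical
  obtain ⟨τ, a, b, hab, hS, h1, h2, h3⟩ := h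
  have hne : a ≠ b := by
    rcases hab with ⟨rfl, rfl⟩ | ⟨rfl, rfl⟩ <;> decide
  have ha2 : (2 : Fin 5) ≠ a ∧ (2 : Fin 5) ≠ b ∧ (3 : Fin 5) ≠ a ∧ (3 : Fin 5) ≠ b := by
    rcases hab with ⟨rfl, rfl⟩ | ⟨rfl, rfl⟩ <;> decide
  refine ⟨up p τ a b, b, a, by tauto, ?_, up_one τ a b hne hS h1, ?_, ?_⟩
  · rcases hp with hp | ⟨rfl, hp⟩
    · exact up_spn3 τ a b b hne hp (by omega)
    · have hex : ∀ k : Fin 5, cn τ k = 1 → ∃ x, τ x = k := by
        intro k hk
        unfold cn at hk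
        rw [Nat.card_eq_one_iff_unique] at hk
        obtain ⟨-, ⟨x⟩⟩ := hk
        exact ⟨x.1, x.2⟩
      obtain ⟨x, hx⟩ := hex 2 h2
      obtain ⟨y, hy⟩ := hex 3 h3
      refine up_spn2 τ a b b hne hp hV x y ?_ (by rw [hx]; exact ha2.2.1) (by rw [hy]; exact ha2.2.2.2)
      rintro rfl
      rw [hx] at hy
      exact absurd hy (by decide)
  · rw [up_cn_c τ a b 2 ha2.1 ha2.2.1]
    exact h2
  · rw [up_cn_c τ a b 3 ha2.2.2.1 ha2.2.2.2]
    exact h3

theorem ID_equiv {V W : Type} [AddCommGroup V] [AddCommGroup W] (e : V ≃+ W) (h : ID V) : ID W := by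
  obtain ⟨τ, a, b, hab, hS, h1, h2, h3⟩ := h
  exact ⟨fun w => τ (e.symm w), a, b, hab, spn_equiv e _ hS, one_equiv e τ h1,
    (cn_equiv e τ 2).trans h2, (cn_equiv e τ 3).trans h3⟩

theorem ID_AD {V : Type} [AddCommGroup V] [Finite V] (hV : 6 ≤ Nat.card V) (h : ID V) : AD V := by
  obtain ⟨τ, a, b, hab, hS, h1, h2, h3⟩ := h
  by_cases hc : ∃ x y, cn τ x ≠ cn τ y
  · obtain ⟨x, y, hxy⟩ := hc
    exact AD_of τ h1 x y hxy
  · exfalso
    push Not at hc
    have h4 := cn_sum 5 τ
    rw [Finset.sum_congr rfl (fun x _ => hc x 2), h2] at h4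
    simp at h4
    omega

theorem adAll : S_AD := by
  classical
  intro p d hp hd
  have hp' : p.Prime := hp.out
  have hnz : NeZero p := ⟨hp'.ne_zero⟩
  have hp2 := hp'.two_le
  have small : d ≤ 2 → AD (Fin d → ZMod p) := by
    intro h
    obtain ⟨τ, h1, h2, h3, h4⟩ := frame_col p d (by omega)
    refine AD_of τ h1 ⟨1, by omega⟩ 4 ?_
    rw [h4 4 (by show d + 1 < 4; omega), cn_one τ ⟨1, by omega⟩ (fr p d 0) (h2 0) (h3 0)]
    norm_num
  have three : ID (Fin 3 → ZMod p) := by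
    obtain ⟨τ, h1, h2, h3, h4⟩ := frame_col p 3 le_rfl
    refine ⟨τ, 1, 0, Or.inr ⟨rfl, rfl⟩, ?_, h1, ?_, ?_⟩
    · apply spn_mono _ (spn_but (V := Fin 3 → ZMod p) (by
        rw [card_v]
        calc 5 ≤ 2 ^ 3 := by norm_num
          _ ≤ p ^ 3 := Nat.pow_le_pow_left hp2 3) (fr p 3 0))
      intro x hx
      simp only [decide_eq_true_eq] at hx ⊢
      intro h5
      exact hx (h3 0 x h5)
    · exact cn_one τ 2 (fr p 3 1) (h2 1) (h3 1)
    · exact cn_one τ 3 (fr p 3 2) (h2 2) (h3 2)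
  have hcard : ∀ e, 8 ≤ Nat.card (Fin (3 + e) → ZMod p) := by
    intro e
    rw [card_v]
    calc 8 = 2 ^ 3 := by norm_num
      _ ≤ p ^ 3 := Nat.pow_le_pow_left hp2 3
      _ ≤ p ^ (3 + e) := Nat.pow_le_pow_right hp'.pos (by omega)
  have all : ∀ e, ID (Fin (3 + e) → ZMod p) := by
    intro e
    induction e with
    | zero => exact three
    | succ e ih =>
      obtain ⟨E⟩ := equivS (p := p) (3 + e)
      refine ID_equiv E (ID_step (hcard e) ?_ ih)
      by_cases h3 : 3 ≤ p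
      · exact Or.inl h3
      · right
        have h2 : p = 2 := by omega
        refine ⟨h2, ?_⟩
        subst h2
        intro v
        funext i
        exact z2 (v i)
  obtain h | h : d ≤ 2 ∨ 3 ≤ d := by omega
  · exact small h
  · obtain ⟨e, rfl⟩ := Nat.exists_eq_add_of_le h
    exact ID_AD (by have := hcard e; omega) (all e)

end Pool.Agent.Q157.DD
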