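import Mathlib
import Pool.Agent.Q157.DD.AD

/-!
# Project DD: three colours
-/

set_option autoImplicit false

namespace Pool.Agent.Q157.DD

open Equiv Pool.Agent.Q157.SC
open scoped commutatorElement

/-- Five colourings from one. -/
theorem AE_of {V : Type} [AddCommGroup V] (τ : V → Fin 3)
    (h1 : ∀ f ∈ ast τ, ∀ g ∈ ast τ, f * g = g * f) (h2 : ∀ a b, cn τ a = cn τ b → a = b) : AE V := by
  obtain ⟨π⟩ : Nonempty (Fin 5 ↪ Perm (Fin 3)) :=
    Function.Embedding.nonempty_of_card_le (by simp [Fintype.card_perm, Nat.factorial])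
  refine ⟨fun i v => π i (τ v), ?_, ?_⟩
  · intro i f hf g hg
    rw [ast_inj τ (π i) (π i).injective] at hf hg
    exact h1 f hf g hg
  · intro i j hij
    apply π.injective
    have h3 : (π i).symm = (π j).symm := by
      apply Equiv.ext
      intro a
      apply h2
      have := hij a
      rwa [cn_perm, cn_perm] at this
    exact Equiv.symm_bijective.injective h3

/-- The invariant. -/
def IE (V : Type) [AddCommGroup V] : Prop :=
  ∃ (τ : V → Fin 3) (a b c : Fin 3), a ≠ b ∧ a ≠ c ∧ b ≠ c ∧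
    Spn (fun v => decide (τ v ≠ a)) ∧ (∀ f ∈ ast τ, ∀ g ∈ ast τ, f * g = g * f) ∧
    cn τ c < cn τ b ∧ 1 ≤ cn τ c ∧ ((∀ v : V, v + v = 0) → 1 ≤ cn τ a)

theorem IE_step {p : ℕ} [Fact p.Prime] {V : Type} [AddCommGroup V] [Finite V] (hV : 3 ≤ Nat.card V)
    (hp : 3 ≤ p ∨ (p = 2 ∧ 8 ≤ Nat.card V ∧ ∀ v : V, v + v = 0)) (h : IE V) :
    IE (V × ZMod p) ∧ AE (V × ZMod p) := by
  classical
  have hp' : p.Prime := Fact.out
  have hnz : NeZero p := ⟨hp'.ne_zero⟩
  obtain ⟨τ, a, b, c, hab, hac, hbc, hS, h1, h2, h3, h4⟩ := h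
  have hall : ∀ x : Fin 3, x = a ∨ x = b ∨ x = c := by
    have : ∀ a b c x : Fin 3, a ≠ b → a ≠ c → b ≠ c → x = a ∨ x = b ∨ x = c := by decide
    intro x
    exact this a b c x hab hac hbc
  have hsum : ∀ n : Fin 3 → ℕ, ∑ x, n x = n a + n b + n c := by
    intro n
    have h5 : (Finset.univ : Finset (Fin 3)) = {a, b, c} := by
      ext x
      simp only [Finset.mem_univ, Finset.mem_insert, Finset.mem_singleton, true_iff]
      exact hall x
    rw [h5, Finset.sum_insert, Finset.sum_insert, Finset.sum_singleton, add_assoc]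
    · simpa using hbc
    · simp [hab, hac]
  have s1 := cn_sum 3 τ
  have s2 := cn_sum 3 (up p τ a b)
  rw [hsum] at s1 s2
  rw [Nat.card_prod, Nat.card_zmod] at s2
  have nb := up_cn_b (p := p) τ a b hab
  have nc := up_cn_c (p := p) τ a b c hac.symm hbc.symm
  have hbig : 2 * cn τ b + 2 + cn τ c < Nat.card V * p := by
    rcases hp with hp | ⟨rfl, hp, h6⟩
    · have : Nat.card V * 3 ≤ Nat.card V * p := Nat.mul_le_mul_left _ hp
      omega
    · have := h4 h6
      omega
  have hcm := up_comm (p := p) τ a b hab hS h1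
  refine ⟨⟨up p τ a b, b, a, c, hab.symm, hbc, hac, ?_, hcm, by omega, by omega, fun _ => by omega⟩,
    AE_of (up p τ a b) hcm ?_⟩
  · rcases hp with hp | ⟨rfl, hp, h6⟩
    · exact up_spn3 τ a b b hab hp (by omega)
    · have hex : ∀ k : Fin 3, 1 ≤ cn τ k → ∃ x, τ x = k := by
        intro k hk
        unfold cn at hk
        have : 0 < Nat.card {x // τ x = k} := hk
        rw [Nat.card_pos_iff] at this
        obtain ⟨⟨x⟩, -⟩ := this
        exact ⟨x.1, x.2⟩
      obtain ⟨x, hx⟩ := hex a (h4 h6)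
      obtain ⟨y, hy⟩ := hex c h3
      refine up_spn2 τ a b b hab h6 hp x y ?_ (by rw [hx]; exact hab) (by rw [hy]; exact hbc.symm)
      rintro rfl
      rw [hx] at hy
      exact hac hy
  · intro x y hxy
    rcases hall x with rfl | rfl | rfl <;> rcases hall y with rfl | rfl | rfl <;> first
      | rfl
      | (exfalso; omega)

theorem IE_equiv {V W : Type} [AddCommGroup V] [AddCommGroup W] (e : V ≃+ W) (h : IE V) : IE W := by
  obtain ⟨τ, a, b, c, hab, hac, hbc, hS, h1, h2, h3, h4⟩ := h
  have hcn : ∀ a, cn (fun w => τ (e.symm w)) a = cn τ a := cn_equiv e τ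
  refine ⟨fun w => τ (e.symm w), a, b, c, hab, hac, hbc, spn_equiv e _ hS, comm_equiv e τ h1, ?_, ?_, ?_⟩
  · rw [hcn, hcn]
    exact h2
  · rw [hcn]
    exact h3
  · intro hW
    rw [hcn]
    apply h4
    intro v
    apply e.injective
    rw [map_add, map_zero]
    exact hW _

theorem AE_equiv {V W : Type} [AddCommGroup V] [AddCommGroup W] (e : V ≃+ W) (h : AE V) : AE W := by
  obtain ⟨c, h1, h2⟩ := h
  refine ⟨fun i w => c i (e.symm w), fun i => comm_equiv e (c i) (h1 i), ?_⟩
  intro i j hij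
  apply h2
  intro a
  have := hij a
  have h3 : ∀ i, cn (fun w => c i (e.symm w)) a = cn (c i) a := fun i => cn_equiv e (c i) a
  rw [← h3 i, ← h3 j]
  exact this

/-- The line: `0` has the colour `1`, the others `0`. -/
theorem IE_line (p : ℕ) [Fact p.Prime] (hp : 3 ≤ p) : IE (ZMod p) ∧ AE (ZMod p) := by
  classical
  have hp' : p.Prime := Fact.out
  have hnz : NeZero p := ⟨hp'.ne_zero⟩
  let τ : ZMod p → Fin 3 := fun x => if x = 0 then 1 else 0
  have c1 : cn τ 1 = 1 := by
    apply cn_one τ 1 0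
    · simp [τ]
    · intro v hv
      by_contra h
      simp [τ, h] at hv
  have c2 : cn τ 2 = 0 := by
    unfold cn
    rw [Nat.card_eq_zero]
    left
    constructor
    rintro ⟨v, hv⟩
    by_cases h : v = 0 <;> simp [τ, h] at hv
  have s := cn_sum 3 τ
  rw [Nat.card_zmod, Fin.sum_univ_three] at s
  have hcm : ∀ f ∈ ast τ, ∀ g ∈ ast τ, f * g = g * f := by
    have h0 : ∀ f ∈ ast τ, f 0 = 0 := by
      intro f hf
      have := hf.2 0
      by_contra h
      simp [τ, h] at this
    intro f hf g hg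
    apply Equiv.ext
    intro x
    show f (g x) = g (f x)
    rw [line_form f hf.1 (g x), line_form g hg.1 (f x), line_form f hf.1 x, line_form g hg.1 x,
      h0 f hf, h0 g hg]
    ring
  constructor
  · refine ⟨τ, 2, 0, 1, by decide, by decide, by decide, ?_, hcm, by omega, by omega, ?_⟩
    · apply line_spn
      have : tr (fun v => decide (τ v ≠ 2)) = p := by
        unfold tr
        have h1 : Nat.card {x : ZMod p // decide (τ x ≠ 2) = true} = Nat.card (ZMod p) := by
          apply Nat.card_congr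
          apply Equiv.subtypeUnivEquiv
          intro x
          by_cases h : x = 0 <;> simp [τ, h]
        rw [h1, Nat.card_zmod]
      omega
    · intro h
      exfalso
      have h1 := h 1
      have h2 : ((2 : ℕ) : ZMod p) = 0 := by
        push_cast
        rw [← h1]
        ring
      rw [ZMod.natCast_eq_zero_iff] at h2
      have := Nat.le_of_dvd (by norm_num) h2
      omega
  · apply AE_of τ hcm
    intro a b hab
    fin_cases a <;> fin_cases b <;> first
      | rfl
      | (exfalso; simp at hab; omega)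

/-- Numbers by computation. -/
theorem cn_fin {V α : Type} [Fintype V] [DecidableEq α] (c : V → α) (a : α) :
    cn c a = (Finset.univ.filter (fun x => c x = a)).card := by
  unfold cn
  rw [Nat.card_eq_fintype_card, Fintype.card_subtype]

abbrev V3 : Type := (ZMod 2 × ZMod 2) × ZMod 2

/-- `0, e1` have the colour 1, `e2, e3` the colour 2, the others 0. -/
def t3 : V3 → Fin 3 := fun x =>
  if x = ((0, 0), 0) ∨ x = ((1, 0), 0) then 1 else if x = ((0, 1), 0) ∨ x = ((0, 0), 1) then 2 else 0

theorem t3_num : (Finset.univ.filter (fun x => t3 x = 0)).card = 4 ∧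
    (Finset.univ.filter (fun x => t3 x = 1)).card = 2 ∧
    (Finset.univ.filter (fun x => t3 x = 2)).card = 2 := by decide +kernel

def ok3 (x₀ x : V3) : Bool := decide (t3 x ≠ 1) && decide (x ≠ x₀)

theorem t3_sp : ∀ x₀ t : V3, ∃ x y : V3, ok3 x₀ x = true ∧ ok3 x₀ y = true ∧
    ok3 x₀ (t - x + y) = true := by decide +kernel

theorem t3_sp2 : ∀ t : V3, ∃ x y z u : V3, t3 x ≠ 0 ∧ t3 y ≠ 0 ∧ t3 z ≠ 0 ∧ t3 u ≠ 0 ∧
    t3 (t - x + y - z + u) ≠ 0 := by decide +kernel

theorem IE_three : IE V3 := by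
  classical
  refine ⟨t3, 1, 0, 2, by decide, by decide, by decide, ?_, ?_, ?_, ?_, ?_⟩
  · intro x₀ W hW h t
    obtain ⟨x, y, hx, hy, hz⟩ := t3_sp x₀ t
    have hok : ∀ x, ok3 x₀ x = true → x ∈ W := by
      intro x hx
      simp only [ok3, Bool.and_eq_true, decide_eq_true_eq] at hx
      exact h x (by simpa using hx.1) hx.2
    have h4 := hW _ (hok x hx) _ (hok y hy) _ (hok _ hz)
    have h5 : x - y + (t - x + y) = t := by abel
    rwa [h5] at h4
  · -- commuting
    have hd : ds (ast t3) 1 = ⊥ := by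
      rw [eq_bot_iff]
      intro g hg
      rw [Subgroup.mem_bot]
      have hK : ∀ (a : Fin 3), Nat.card {x // t3 x = a} ≤ 2 → ∀ x, t3 x = a → g x = x := by
        intro a ha x hx
        exact ds_fix (ast t3) (fun x => t3 x = a) (fun f hf y hy => by rw [hf.2]; exact hy) 1
          (perm_small.2.2 ha) g hg x hx
      have h1 := hK 1 (by
        have := cn_fin t3 1
        rw [t3_num.2.1] at this
        exact le_of_eq this)
      have h2 := hK 2 (by
        have := cn_fin t3 2
        rw [t3_num.2.2] at this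
        exact le_of_eq this)
      have h3 := aff_ext g (1 : Perm V3) {x | t3 x ≠ 0} (ds_le _ 1 hg).1 (fun _ _ _ => rfl) (by
        intro U hU hs t
        obtain ⟨x, y, z, u, hx, hy, hz, hu, hv⟩ := t3_sp2 t
        have h4 := hU _ (hU _ (hs hx) _ (hs hy) _ (hs hz)) _ (hs hu) _ (hs hv)
        have h5 : x - y + z - u + (t - x + y - z + u) = t := by abel
        rwa [h5] at h4) (by
        intro x hx
        have hx' : t3 x ≠ 0 := hx
        have h4 : ∀ a : Fin 3, a ≠ 0 → a = 1 ∨ a = 2 := by decide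
        rcases h4 _ hx' with h5 | h5
        · exact h1 x h5
        · exact h2 x h5)
      exact DFunLike.coe_injective h3
    intro f hf g hg
    have h1 : ⁅f, g⁆ ∈ ds (ast t3) 1 := Subgroup.commutator_mem_commutator hf hg
    rw [hd, Subgroup.mem_bot, commutatorElement_eq_one_iff_mul_comm] at h1
    exact h1
  · rw [cn_fin, cn_fin, t3_num.1, t3_num.2.2]
    norm_num
  · rw [cn_fin, t3_num.2.2]
    norm_num
  · intro _
    rw [cn_fin, t3_num.2.1]
    norm_num

/-- Two points. -/
def q1 : Fin 5 → ZMod 2 → Fin 3 := fun i x =>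
  if x = 0 then (![0, 1, 2, 0, 0] : Fin 5 → Fin 3) i else (![0, 1, 2, 1, 2] : Fin 5 → Fin 3) i

theorem q1_num : ∀ i j, (∀ a, (Finset.univ.filter (fun x => q1 i x = a)).card =
    (Finset.univ.filter (fun x => q1 j x = a)).card) → i = j := by decide +kernel

theorem q1_comm : ∀ f g : Perm (ZMod 2), f * g = g * f := by decide +kernel

theorem AE_one : AE (ZMod 2) := by
  refine ⟨q1, fun i f _ g _ => q1_comm f g, ?_⟩
  intro i j hij
  apply q1_num
  intro a
  rw [← cn_fin, ← cn_fin]
  exact hij a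

/-- Four points. -/
def q2 : Fin 5 → ZMod 2 × ZMod 2 → Fin 3 := fun i x =>
  if x = (0, 0) then (![0, 0, 1, 0, 1] : Fin 5 → Fin 3) i else
  if x = (0, 1) then (![0, 0, 1, 0, 1] : Fin 5 → Fin 3) i else
  if x = (1, 0) then (![1, 2, 2, 1, 0] : Fin 5 → Fin 3) i else (![1, 2, 2, 2, 2] : Fin 5 → Fin 3) i

theorem q2_num : ∀ i j, (∀ a, (Finset.univ.filter (fun x => q2 i x = a)).card =
    (Finset.univ.filter (fun x => q2 j x = a)).card) → i = j := by decide +kernel

theorem q2_comm : ∀ i, ∀ f : Perm (ZMod 2 × ZMod 2), (∀ x, q2 i (f x) = q2 i x) →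
    ∀ g : Perm (ZMod 2 × ZMod 2), (∀ x, q2 i (g x) = q2 i x) → f * g = g * f := by decide +kernel

theorem AE_two : AE (ZMod 2 × ZMod 2) := by
  refine ⟨q2, fun i f hf g hg => q2_comm i f hf.2 g hg.2, ?_⟩
  intro i j hij
  apply q2_num
  intro a
  rw [← cn_fin, ← cn_fin]
  exact hij a

theorem aeAll : S_AE := by
  intro p d hp hd hne
  have hp' : p.Prime := hp.out
  have hnz : NeZero p := ⟨hp'.ne_zero⟩
  have hp2 := hp'.two_le
  obtain ⟨e1⟩ := equivOne (p := p)
  by_cases h3p : 3 ≤ p
  · have all : ∀ e, IE (Fin (1 + e) → ZMod p) ∧ AE (Fin (1 + e) → ZMod p) := by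
      intro e
      induction e with
      | zero =>
        obtain ⟨k1, k2⟩ := IE_line p h3p
        exact ⟨IE_equiv e1 k1, AE_equiv e1 k2⟩
      | succ e ih =>
        obtain ⟨k1, k2⟩ := IE_step (p := p) (V := Fin (1 + e) → ZMod p) (by
          rw [card_v]
          calc 3 ≤ p := h3p
            _ = p ^ 1 := (pow_one p).symm
            _ ≤ p ^ (1 + e) := Nat.pow_le_pow_right hp'.pos (by omega)) (Or.inl h3p) ih.1
        obtain ⟨E⟩ := equivS (p := p) (1 + e)
        exact ⟨IE_equiv E k1, AE_equiv E k2⟩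
    obtain ⟨e, rfl⟩ := Nat.exists_eq_add_of_le hd
    exact (all e).2
  · have h2 : p = 2 := by omega
    subst h2
    have hd3 : d ≠ 3 := fun h => hne ⟨rfl, h⟩
    obtain h | h | h : d = 1 ∨ d = 2 ∨ 4 ≤ d := by omega
    · subst h
      exact AE_equiv e1 AE_one
    · subst h
      obtain ⟨e2⟩ := equivTwo (p := 2)
      exact AE_equiv e2 AE_two
    · have e3 : Nonempty (V3 ≃+ (Fin 3 → ZMod 2)) := by
        apply addEquiv_of (p := 2)
        simp
      obtain ⟨e3⟩ := e3
      have stp : ∀ e, IE (Fin (3 + e) → ZMod 2) →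
          IE (Fin (3 + (e + 1)) → ZMod 2) ∧ AE (Fin (3 + (e + 1)) → ZMod 2) := by
        intro e ih
        have hc : 8 ≤ Nat.card (Fin (3 + e) → ZMod 2) := by
          rw [card_v]
          calc 8 = 2 ^ 3 := by norm_num
            _ ≤ 2 ^ (3 + e) := Nat.pow_le_pow_right (by norm_num) (by omega)
        obtain ⟨k1, k2⟩ := IE_step (p := 2) (V := Fin (3 + e) → ZMod 2) (by omega)
          (Or.inr ⟨rfl, hc, fun v => funext (fun i => z2 (v i))⟩) ih
        obtain ⟨E⟩ := equivS (p := 2) (3 + e)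
        exact ⟨IE_equiv E k1, AE_equiv E k2⟩
      have all : ∀ e, IE (Fin (3 + e) → ZMod 2) := by
        intro e
        induction e with
        | zero => exact IE_equiv e3 IE_three
        | succ e ih => exact (stp e ih).1
      obtain ⟨e, he⟩ := Nat.exists_eq_add_of_le h
      have h8 := (stp e (all e)).2
      have h9 : 3 + (e + 1) = d := by omega
      rw [h9] at h8
      exact h8

end Pool.Agent.Q157.DD
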