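import Mathlib
import Pool.Agent.Q157.DD.AE
import Pool.Agent.Q157.SC.Prim
import Pool.Agent.Q157.SC.Eight

/-!
# Project DD: primitive solvable groups
-/

set_option autoImplicit false

namespace Pool.Agent.Q157.DD

open Equiv Pool.Agent.Q157.SC
open scoped commutatorElement

theorem cn_congr {S α : Type} (c c' : S → α) (g : Perm S) (h : ∀ x, c (g x) = c' x) (a : α) :
    cn c a = cn c' a := by
  refine (Nat.card_congr ?_).symm
  exact g.subtypeEquiv (fun x => by rw [h])

theorem ds_comm_iff {G : Type} [Group G] {K : Subgroup G} (h : ds K 1 = ⊥) :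
    ∀ a ∈ K, ∀ b ∈ K, a * b = b * a := by
  intro f hf g hg
  have h1 : ⁅f, g⁆ ∈ ds K 1 := Subgroup.commutator_mem_commutator hf hg
  rwa [h, Subgroup.mem_bot, commutatorElement_eq_one_iff_mul_comm] at h1

theorem cst_compl {S : Type} (T : Subgroup (Perm S)) (c : S → Bool) : cst T (fun x => !c x) = cst T c := by
  ext f
  constructor
  · rintro ⟨h1, h2⟩
    exact ⟨h1, fun x => Bool.not_inj (h2 x)⟩
  · rintro ⟨h1, h2⟩
    exact ⟨h1, fun x => by show (!c (f x)) = !c x; rw [h2]⟩

/-- The elements of `T` preserving `c ∘ e` are affine permutations preserving `c`. -/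
theorem cst_map {S V α : Type} [AddCommGroup V] (T : Subgroup (Perm S)) (e : S ≃ V)
    (haff : ∀ g ∈ T, Aff (fun v => e (g (e.symm v)))) (c : V → α) (g : Perm S)
    (hg : g ∈ cst T (fun x => c (e x))) : e.permCongrHom g ∈ ast c := by
  refine ⟨haff g hg.1, fun v => ?_⟩
  show c (e (g (e.symm v))) = c v
  have h : c (e (g (e.symm v))) = c (e (e.symm v)) := hg.2 (e.symm v)
  rw [h, e.apply_symm_apply]

theorem exists_three {S : Type} [Finite S] (h : 3 ≤ Nat.card S) : ∃ x y z : S, x ≠ y ∧ x ≠ z ∧ y ≠ z := by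
  classical
  have : Fintype S := Fintype.ofFinite S
  obtain ⟨T, -, hT⟩ := Finset.exists_subset_card_eq (s := (Finset.univ : Finset S)) (n := 3)
    (by rw [Finset.card_univ, ← Nat.card_eq_fintype_card]; exact h)
  obtain ⟨x, y, z, hxy, hxz, hyz, -⟩ := Finset.card_eq_three.1 hT
  exact ⟨x, y, z, hxy, hxz, hyz⟩

theorem card_eight {S : Type} (e : S ≃ (Fin 3 → ZMod 2)) : Nat.card S = 8 := by
  rw [Nat.card_congr e, Nat.card_eq_fintype_card, Fintype.card_fun, ZMod.card, Fintype.card_fin]
  norm_num

theorem eight_ds {S : Type} [Finite S] (G : Subgroup (Perm S))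
    (hA : ∀ g ∈ G, ∀ a b c : S, a ≠ b → a ≠ c → b ≠ c → g a = a → g b = b → g c = c → g = 1)
    (hB : ∀ g ∈ G, ∀ h ∈ G, ∀ a b : S, a ≠ b → g a = a → g b = b → h a = a → h b = b → g * h = h * g)
    (c : S → Bool) (h2 : 2 ≤ tr c) (h4 : tr c ≤ 4) : ds (cst G c) 3 = ⊥ := by
  have hP : ∀ g ∈ cst G c, ∀ x, c x = true → c (g x) = true := by
    intro g hg x hx
    rw [hg.2, hx]
  have hG : ∀ n, ∀ g ∈ ds (cst G c) n, g ∈ G := fun n g hg => (ds_le _ n hg).1
  by_cases h3 : 3 ≤ tr c
  · -- three points
    obtain ⟨⟨x, hx⟩, ⟨y, hy⟩, ⟨z, hz⟩, hxy, hxz, hyz⟩ := exists_three (S := {x // c x = true}) h3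
    rw [eq_bot_iff]
    intro g hg
    rw [Subgroup.mem_bot]
    have hfix : ∀ x, c x = true → g x = x := by
      intro x hx
      exact ds_fix (cst G c) (fun x => c x = true) hP 3 (perm_small.1 h4) g hg x hx
    exact hA g (hG 3 g hg) x y z (fun h => hxy (Subtype.ext h)) (fun h => hxz (Subtype.ext h))
      (fun h => hyz (Subtype.ext h)) (hfix x hx) (hfix y hy) (hfix z hz)
  · have hnt : Nontrivial {x // c x = true} := by
      rw [← Finite.one_lt_card_iff_nontrivial]
      exact h2
    obtain ⟨⟨x, hx⟩, ⟨y, hy⟩, hxy⟩ := exists_pair_ne {x // c x = true}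
    have hfix : ∀ g ∈ ds (cst G c) 1, ∀ x, c x = true → g x = x := by
      intro g hg x hx
      exact ds_fix (cst G c) (fun x => c x = true) hP 1 (perm_small.2.2 (by unfold tr at h3; omega)) g hg x hx
    have h5 : ds (ds (cst G c) 1) 1 = ⊥ := by
      apply ds_comm
      intro g hg h hh
      exact hB g (hG 1 g hg) h (hG 1 h hh) x y (fun h => hxy (Subtype.ext h)) (hfix g hg x hx)
        (hfix g hg y hy) (hfix h hh x hx) (hfix h hh y hy)
    have h6 : ds (cst G c) 2 = ds (ds (cst G c) 1) 1 := by rw [← ds_add]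
    exact ds_bot_mono le_rfl (by norm_num : 2 ≤ 3) (h6.trans h5)

theorem R5 (h1 : S_prim) (h2 : S_A5) (h3 : S_eight) : S_R5 := by
  classical
  intro S _ T hs hT hS4
  have hnt : Nontrivial S := by
    rw [← Finite.one_lt_card_iff_nontrivial]
    omega
  obtain ⟨p, d, hp, e, hd, haff⟩ := h1 S T hs hT
  by_cases h8 : p = 2 ∧ d = 3
  · obtain ⟨rfl, rfl⟩ := h8
    have hcard := card_eight e
    obtain ⟨hA, hB⟩ := h3 S T hs hT hcard
    obtain ⟨c2, hc2⟩ := exists_tr (S := S) 2 (by omega)
    obtain ⟨c3, hc3⟩ := exists_tr (S := S) 3 (by omega)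
    obtain ⟨c4, hc4⟩ := exists_tr (S := S) 4 (by omega)
    have hc5 := tr_compl c3
    have hc6 := tr_compl c2
    have k2 := eight_ds T hA hB c2 (by omega) (by omega)
    have k3 := eight_ds T hA hB c3 (by omega) (by omega)
    have k4 := eight_ds T hA hB c4 (by omega) (by omega)
    refine ⟨![c2, c3, c4, fun x => !c3 x, fun x => !c2 x], ?_, ?_⟩
    · have key : ∀ i : Fin 5, tr ((![c2, c3, c4, fun x => !c3 x, fun x => !c2 x] : Fin 5 → S → Bool) i) =
          (i : ℕ) + 2 := by
        intro i
        fin_cases i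
        · exact hc2
        · exact hc3
        · exact hc4
        · show tr (fun x => !c3 x) = 5
          omega
        · show tr (fun x => !c2 x) = 6
          omega
      intro i j g _ hgc
      have h6 := tr_perm _ _ g hgc
      rw [key, key] at h6
      exact Fin.ext (by omega)
    · intro i
      fin_cases i
      · exact k2
      · exact k3
      · exact k4
      · show ds (cst T (fun x => !c3 x)) 3 = ⊥
        rw [cst_compl]
        exact k3
      · show ds (cst T (fun x => !c2 x)) 3 = ⊥
        rw [cst_compl]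
        exact k2
  · obtain ⟨c, hc1, hc2⟩ := h2 p d (by
      rw [← card_v, ← Nat.card_congr e]
      exact hS4) h8
    refine ⟨fun i x => c i (e x), ?_, ?_⟩
    · intro i j g _ hgc
      apply hc2
      have ht : ∀ i, tr (fun x => c i (e x)) = tr (c i) := by
        intro i
        exact Nat.card_congr (e.subtypeEquiv (fun x => Iff.rfl))
      rw [← ht i, ← ht j]
      exact tr_perm _ _ g hgc
    · intro i
      apply ds_inj e.permCongrHom.toMonoidHom e.permCongrHom.injective _ (ast (c i)) _ 3 (hc1 i)
      rintro _ ⟨f, hf, rfl⟩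
      exact cst_map T e haff (c i) f hf

theorem Dp (h1 : S_prim) (h2 : S_AD) : S_Dp := by
  classical
  intro S _ _ T hs hT
  obtain ⟨p, d, hp, e, hd, haff⟩ := h1 S T hs hT
  obtain ⟨c, hc1, hc2⟩ := h2 p d hd
  refine ⟨fun i x => c i (e x), ?_, ?_⟩
  · intro i j g _ hgc
    apply hc2
    intro a
    have ht : ∀ i, cn (fun x => c i (e x)) a = cn (c i) a := by
      intro i
      exact Nat.card_congr (e.subtypeEquiv (fun x => Iff.rfl))
    rw [← ht i, ← ht j]
    exact cn_congr _ _ g hgc a
  · intro i g hg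
    apply e.permCongrHom.injective
    rw [map_one]
    exact hc1 i _ (cst_map T e haff (c i) g hg)

theorem E5 (h1 : S_prim) (h2 : S_AE) (h3 : S_eight) : S_E5 := by
  classical
  intro S _ _ T hs hT
  obtain ⟨p, d, hp, e, hd, haff⟩ := h1 S T hs hT
  by_cases h8 : p = 2 ∧ d = 3
  · obtain ⟨rfl, rfl⟩ := h8
    have hcard := card_eight e
    obtain ⟨hA, hB⟩ := h3 S T hs hT hcard
    have : Fintype S := Fintype.ofFinite S
    obtain ⟨x, y, z, hxy, hxz, hyz⟩ := exists_three (S := S) (by omega)
    let τ : S → Fin 3 := fun w => if w = x then 1 else if w = y ∨ w = z then 2 else 0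
    have tx : τ x = 1 := by simp [τ]
    have ty : τ y = 2 := by simp [τ, hxy.symm]
    have tz : τ z = 2 := by simp [τ, hxz.symm]
    have c1 : cn τ 1 = 1 := by
      apply cn_one τ 1 x tx
      intro v hv
      by_contra h
      simp only [τ, if_neg h] at hv
      split_ifs at hv <;> exact absurd hv (by decide)
    have c2 : cn τ 2 = 2 := by
      rw [cn_fin]
      have : Finset.univ.filter (fun w => τ w = 2) = {y, z} := by
        ext w
        simp only [Finset.mem_filter, Finset.mem_univ, true_and, Finset.mem_insert,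
          Finset.mem_singleton]
        constructor
        · intro hw
          by_contra h
          simp only [τ, if_neg h] at hw
          split_ifs at hw <;> exact absurd hw (by decide)
        · rintro (rfl | rfl)
          · exact ty
          · exact tz
      rw [this, Finset.card_pair hyz]
    have s := cn_sum 3 τ
    rw [hcard, Fin.sum_univ_three] at s
    have hinj : ∀ a b, cn τ a = cn τ b → a = b := by
      intro a b hab
      fin_cases a <;> fin_cases b <;> first
        | rfl
        | (exfalso; simp at hab; omega)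
    have hcm : ∀ f ∈ cst T τ, ∀ g ∈ cst T τ, f * g = g * f := by
      apply ds_comm_iff
      rw [eq_bot_iff]
      intro g hg
      rw [Subgroup.mem_bot]
      have hK : ∀ (a : Fin 3), cn τ a ≤ 2 → ∀ x, τ x = a → g x = x := by
        intro a ha x hx
        exact ds_fix (cst T τ) (fun x => τ x = a) (fun f hf y hy => by rw [hf.2]; exact hy) 1
          (perm_small.2.2 ha) g hg x hx
      exact hA g (ds_le _ 1 hg).1 x y z hxy hxz hyz (hK 1 (by omega) x tx) (hK 2 (by omega) y ty)
        (hK 2 (by omega) z tz)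
    obtain ⟨π⟩ : Nonempty (Fin 5 ↪ Perm (Fin 3)) :=
      Function.Embedding.nonempty_of_card_le (by simp [Fintype.card_perm, Nat.factorial])
    refine ⟨fun i v => π i (τ v), ?_, ?_⟩
    · intro i j g _ hgc
      apply π.injective
      have h5 : (π i).symm = (π j).symm := by
        apply Equiv.ext
        intro a
        apply hinj
        have := cn_congr (fun v => π i (τ v)) (fun v => π j (τ v)) g hgc a
        rwa [cn_perm, cn_perm] at this
      exact Equiv.symm_bijective.injective h5
    · intro i f hf g hg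
      exact hcm f ⟨hf.1, fun x => (π i).injective (hf.2 x)⟩ g ⟨hg.1, fun x => (π i).injective (hg.2 x)⟩
  · obtain ⟨c, hc1, hc2⟩ := h2 p d hd h8
    refine ⟨fun i x => c i (e x), ?_, ?_⟩
    · intro i j g _ hgc
      apply hc2
      intro a
      have ht : ∀ i, cn (fun x => c i (e x)) a = cn (c i) a := by
        intro i
        exact Nat.card_congr (e.subtypeEquiv (fun x => Iff.rfl))
      rw [← ht i, ← ht j]
      exact cn_congr _ _ g hgc a
    · intro i f hf g hg
      apply e.permCongrHom.injective
      rw [map_mul, map_mul]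
      exact hc1 i _ (cst_map T e haff (c i) f hf) _ (cst_map T e haff (c i) g hg)

end Pool.Agent.Q157.DD
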