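import Mathlib
import Pool.Agent.Q157.DD.RFive
import Pool.Agent.Q123.DD.Low
import Pool.Agent.Q123.DD.N9
import Pool.Agent.Q153.DD.d7
import Pool.Agent.Q154.DD.D86
import Pool.Agent.Q182.DD.Sol
import Pool.Agent.Q130.SC.C8

/-!
# Project DD: the theorem
-/

set_option autoImplicit false

namespace Pool.Agent.Q157.DD

open Pool.Agent.Q157.SC

theorem all_A5 : S_A5 :=
  A5 tri Pool.Agent.Q123.DD.n9 Pool.Agent.Q153.DD.d7 Pool.Agent.Q154.DD.d8 Pool.Agent.Q154.DD.d6
    (c7g Pool.Agent.Q153.SC.gen)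
    (Pool.Agent.Q130.SC8.c8g Pool.Agent.Q153.SC.gen (bas Pool.Agent.Q153.SC.gen))

theorem all_up : S_up := upper (R5 prim all_A5 eight) (E5 prim aeAll eight) (Dp prim adAll)

theorem all_low : S_low := Pool.Agent.Q123.DD.low

theorem all_sol : S_sol := Pool.Agent.Q182.DD.sol

end Pool.Agent.Q157.DD
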